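import Pool.Agent.Y303.LV.Vort

/-!
Bounds for the decaying Gaussian vortex.
-/

set_option autoImplicit false
set_option linter.unusedSectionVars false

open MeasureTheory Set Filter Topology
open scoped InnerProductSpace ENNReal ContDiff NNReal

namespace Pool.Agent.Y303.LV

open H772R2.NS

variable {Ω : Set E3} {b : E3} {ρ B ν a κ Bt : ℝ} {h h1 h2 θ θ1 : ℝ → ℝ}

theorem abs_Gf_le {k : ℝ → ℝ} (hk : ∀ r, |k r| ≤ B) (s : ℝ) (x : E3) :
    |Gf b s k x| ≤ B * Real.exp (-(1 / s) * q2 b x) := by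
  unfold Gf
  rw [abs_mul, abs_of_pos (Real.exp_pos _)]
  exact mul_le_mul_of_nonneg_right (hk _) (Real.exp_pos _).le

theorem sqrt_exp_le {q s : ℝ} (hq : 0 ≤ q) (hs : 0 < s) :
    √q * Real.exp (-(1 / s) * q) ≤ 4 * √s * Real.exp (-(1 / (2 * s)) * q) := by
  refine le_trans ?_ (elem_ineq hq hs)
  have h1 : 0 ≤ √q * Real.exp (-(1 / s) * q) := by positivity
  have h2 : 0 ≤ q / s := by positivity
  calc √q * Real.exp (-(1 / s) * q) = 1 * (√q * Real.exp (-(1 / s) * q)) := by ring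
    _ ≤ (1 + q / s) * (√q * Real.exp (-(1 / s) * q)) := by gcongr; linarith
    _ = _ := by ring

theorem abs_Am_le (hκ : 0 ≤ κ) (hT : TCut ν θ θ1 Bt) {t : ℝ} (hs : 0 < sg a ν t) :
    |Am κ a ν θ t| ≤ κ / sg a ν t ^ 2 := by
  have h1 := hT.nonneg t
  have h2 := hT.le_one t
  unfold Am
  rw [abs_of_nonneg (by positivity)]
  gcongr
  calc κ * θ t ≤ κ * 1 := by gcongr
    _ = κ := mul_one _

theorem norm_Vf_le (hκ : 0 ≤ κ) (hB : 0 < B) (hC : Cut ρ h h1 h2 B) (hT : TCut ν θ θ1 Bt) {t : ℝ}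
    (hs : 0 < sg a ν t) (x : E3) : ‖Vf b h κ a ν θ t x‖ ≤ 4 * B * κ / √(sg a ν t) ^ 3 := by
  set s := sg a ν t with hsdef
  have hs' : 0 < √s := Real.sqrt_pos.2 hs
  have e0 : s = √s ^ 2 := (Real.sq_sqrt hs.le).symm
  have h1 := abs_Am_le (κ := κ) hκ hT hs
  have h2 := abs_Gf_le (b := b) hC.b0 s x
  have h3 := sqrt_exp_le (q2_nonneg b x) hs
  have h4 : Real.exp (-(1 / (2 * s)) * q2 b x) ≤ 1 := by
    rw [Real.exp_le_one_iff]
    have := q2_nonneg b x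
    have : 0 ≤ 1 / (2 * s) * q2 b x := by positivity
    linarith
  rw [Vf, vf_eq, norm_smul, norm_smul, norm_Jv, Real.norm_eq_abs, Real.norm_eq_abs]
  calc |Am κ a ν θ t| * (|Gf b s h x| * √(q2 b x))
      ≤ κ / s ^ 2 * ((B * Real.exp (-(1 / s) * q2 b x)) * √(q2 b x)) := by gcongr
    _ = κ / s ^ 2 * B * (√(q2 b x) * Real.exp (-(1 / s) * q2 b x)) := by ring
    _ ≤ κ / s ^ 2 * B * (4 * √s * Real.exp (-(1 / (2 * s)) * q2 b x)) := by gcongr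
    _ ≤ κ / s ^ 2 * B * (4 * √s * 1) := by gcongr
    _ = 4 * B * κ / √s ^ 3 := by
        rw [e0, Real.sqrt_sq hs'.le]
        field_simp

theorem norm_V1f_le (hκ : 0 ≤ κ) (hν : 0 < ν) (hB : 0 < B) (hBt : 0 < Bt)
    (hC : Cut ρ h h1 h2 B) (hT : TCut ν θ θ1 Bt) {t : ℝ} (hs : 0 < sg a ν t) (hs5 : sg a ν t ≤ 5)
    (x : E3) : ‖V1f b h κ a ν θ θ1 t x‖
      ≤ 4 * κ * B * (5 * Bt + 8 * ν) / sg a ν t ^ 3 * √(sg a ν t)
        * Real.exp (-(1 / (2 * sg a ν t)) * q2 b x) := by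
  set s := sg a ν t with hsdef
  have hq := q2_nonneg b x
  have h1 := abs_Am_le (κ := κ) hκ hT hs
  have h2 := abs_Gf_le (b := b) hC.b0 s x
  have h3 := elem_ineq hq hs
  have hθ0 := hT.nonneg t
  have hθ1 := hT.le_one t
  have k1 : |Am1 κ a ν θ θ1 t| ≤ κ / s ^ 3 * (5 * Bt + 8 * ν) := by
    have e : Am1 κ a ν θ θ1 t = κ / s ^ 3 * (s * θ1 t - 8 * ν * θ t) := by
      simp only [Am1, ← hsdef]
      field_simp
    rw [e, abs_mul, abs_of_nonneg (by positivity : 0 ≤ κ / s ^ 3)]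
    refine mul_le_mul_of_nonneg_left ?_ (by positivity)
    have a1 := abs_sub (s * θ1 t) (8 * ν * θ t)
    rw [abs_mul, abs_of_pos hs, abs_of_nonneg (by positivity : 0 ≤ 8 * ν * θ t)] at a1
    have a2 : s * |θ1 t| ≤ 5 * Bt := by
      have := hT.b1 t
      gcongr
    have a3 : 8 * ν * θ t ≤ 8 * ν * 1 := by gcongr
    linarith
  have k2 : |Am1 κ a ν θ θ1 t + Am κ a ν θ t * (4 * ν * q2 b x / s ^ 2)|
      ≤ κ / s ^ 3 * (5 * Bt + 8 * ν) * (1 + q2 b x / s) := by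
    have a1 := abs_add_le (Am1 κ a ν θ θ1 t) (Am κ a ν θ t * (4 * ν * q2 b x / s ^ 2))
    rw [abs_mul, abs_of_nonneg (by positivity : 0 ≤ 4 * ν * q2 b x / s ^ 2)] at a1
    have a2 : |Am κ a ν θ t| * (4 * ν * q2 b x / s ^ 2)
        ≤ κ / s ^ 2 * (4 * ν * q2 b x / s ^ 2) := by gcongr
    have a3 : κ / s ^ 2 * (4 * ν * q2 b x / s ^ 2) = κ / s ^ 3 * (4 * ν) * (q2 b x / s) := by
      field_simp
    have a4 : κ / s ^ 3 * (4 * ν) * (q2 b x / s) ≤ κ / s ^ 3 * (5 * Bt + 8 * ν) * (q2 b x / s) := by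
      gcongr
      linarith
    calc _ ≤ κ / s ^ 3 * (5 * Bt + 8 * ν) + κ / s ^ 3 * (5 * Bt + 8 * ν) * (q2 b x / s) := by
          linarith
      _ = _ := by ring
  rw [V1f, vf_eq, norm_smul, norm_smul, norm_Jv, Real.norm_eq_abs, Real.norm_eq_abs]
  calc |Am1 κ a ν θ θ1 t + Am κ a ν θ t * (4 * ν * q2 b x / s ^ 2)| * (|Gf b s h x| * √(q2 b x))
      ≤ κ / s ^ 3 * (5 * Bt + 8 * ν) * (1 + q2 b x / s)
        * ((B * Real.exp (-(1 / s) * q2 b x)) * √(q2 b x)) := by gcongr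
    _ = κ / s ^ 3 * (5 * Bt + 8 * ν) * B
        * ((1 + q2 b x / s) * √(q2 b x) * Real.exp (-(1 / s) * q2 b x)) := by ring
    _ ≤ κ / s ^ 3 * (5 * Bt + 8 * ν) * B * (4 * √s * Real.exp (-(1 / (2 * s)) * q2 b x)) := by
        gcongr
    _ = _ := by ring

theorem norm_gf_le (hκ : 0 ≤ κ) (hν : 0 < ν) (hρ : 0 < ρ) (hB : 0 < B) (hBt : 0 < Bt)
    (hC : Cut ρ h h1 h2 B) (hT : TCut ν θ θ1 Bt) {t : ℝ} (hs : 0 < sg a ν t) {x : E3}
    (hx : R2 b x ≤ ρ ^ 2 / 2) : ‖gf b h h1 h2 κ a ν θ θ1 t x‖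
      ≤ (4 * κ * B * (Bt + ν * (2 * ρ ^ 2 + 10)) / sg a ν t ^ 2 * √(sg a ν t)
        + κ ^ 2 * B ^ 2 * ρ / sg a ν t ^ 3) * Real.exp (-(1 / (2 * sg a ν t)) * q2 b x) := by
  set s := sg a ν t with hsdef
  have hq := q2_nonneg b x
  have hR := R2_nonneg b x
  have h0 := abs_Am_le (κ := κ) hκ hT hs
  have g0 := abs_Gf_le (b := b) hC.b0 s x
  have g1 := abs_Gf_le (b := b) hC.b1 s x
  have g2 := abs_Gf_le (b := b) hC.b2 s x
  have h3 := elem_ineq hq hs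
  have hθ0 := hT.nonneg t
  have hθ1 := hT.le_one t
  set E := Real.exp (-(1 / s) * q2 b x) with hE
  have hE0 : 0 < E := Real.exp_pos _
  have k1 : |θ1 t * Gf b s h x - ν * θ t * (4 * R2 b x * Gf b s h2 x
      - 8 / s * q2 b x * Gf b s h1 x + 10 * Gf b s h1 x)|
      ≤ (Bt + ν * (2 * ρ ^ 2 + 10)) * (1 + q2 b x / s) * (B * E) := by
    have a1 : |θ1 t * Gf b s h x| ≤ Bt * (B * E) := by
      rw [abs_mul]
      exact mul_le_mul (hT.b1 t) g0 (abs_nonneg _) hBt.le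
    have a2 : |4 * R2 b x * Gf b s h2 x - 8 / s * q2 b x * Gf b s h1 x + 10 * Gf b s h1 x|
        ≤ (2 * ρ ^ 2 + 10 + 8 * (q2 b x / s)) * (B * E) := by
      have b1 : |4 * R2 b x * Gf b s h2 x| ≤ 2 * ρ ^ 2 * (B * E) := by
        rw [abs_mul, abs_of_nonneg (by positivity : 0 ≤ 4 * R2 b x)]
        exact mul_le_mul (by linarith) g2 (abs_nonneg _) (by positivity)
      have b2 : |8 / s * q2 b x * Gf b s h1 x| ≤ 8 * (q2 b x / s) * (B * E) := by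
        rw [abs_mul, abs_of_nonneg (by positivity : 0 ≤ 8 / s * q2 b x)]
        have : 8 / s * q2 b x = 8 * (q2 b x / s) := by ring
        rw [this]
        exact mul_le_mul_of_nonneg_left g1 (by positivity)
      have b3 : |10 * Gf b s h1 x| ≤ 10 * (B * E) := by
        rw [abs_mul, abs_of_nonneg (by norm_num : (0 : ℝ) ≤ 10)]
        exact mul_le_mul_of_nonneg_left g1 (by positivity)
      have b4 := abs_add_le (4 * R2 b x * Gf b s h2 x - 8 / s * q2 b x * Gf b s h1 x)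
        (10 * Gf b s h1 x)
      have b5 := abs_sub (4 * R2 b x * Gf b s h2 x) (8 / s * q2 b x * Gf b s h1 x)
      calc _ ≤ 2 * ρ ^ 2 * (B * E) + 8 * (q2 b x / s) * (B * E) + 10 * (B * E) := by linarith
        _ = _ := by ring
    have a3 : |ν * θ t * (4 * R2 b x * Gf b s h2 x - 8 / s * q2 b x * Gf b s h1 x
        + 10 * Gf b s h1 x)| ≤ ν * ((2 * ρ ^ 2 + 10 + 8 * (q2 b x / s)) * (B * E)) := by
      rw [abs_mul, abs_of_nonneg (by positivity : 0 ≤ ν * θ t)]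
      refine mul_le_mul ?_ a2 (abs_nonneg _) hν.le
      calc ν * θ t ≤ ν * 1 := by gcongr
        _ = ν := mul_one _
    have a4 := abs_sub (θ1 t * Gf b s h x) (ν * θ t * (4 * R2 b x * Gf b s h2 x
      - 8 / s * q2 b x * Gf b s h1 x + 10 * Gf b s h1 x))
    have a5 : Bt * (B * E) + ν * ((2 * ρ ^ 2 + 10 + 8 * (q2 b x / s)) * (B * E))
        ≤ (Bt + ν * (2 * ρ ^ 2 + 10)) * (1 + q2 b x / s) * (B * E) := by
      have b1 : 0 ≤ B * E := by positivity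
      have b2 : 0 ≤ q2 b x / s := by positivity
      have b3 : 0 ≤ Bt * (q2 b x / s) * (B * E) := by positivity
      have b4 : 0 ≤ ν * (2 * ρ ^ 2 + 2) * (q2 b x / s) * (B * E) := by positivity
      nlinarith
    linarith
  have k2 : ‖(κ / s ^ 2 * (θ1 t * Gf b s h x - ν * θ t * (4 * R2 b x * Gf b s h2 x
      - 8 / s * q2 b x * Gf b s h1 x + 10 * Gf b s h1 x))) • Jv b x‖
      ≤ 4 * κ * B * (Bt + ν * (2 * ρ ^ 2 + 10)) / s ^ 2 * √s
        * Real.exp (-(1 / (2 * s)) * q2 b x) := by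
    rw [norm_smul, norm_Jv, Real.norm_eq_abs, abs_mul, abs_of_nonneg (by positivity : 0 ≤ κ / s ^ 2)]
    calc κ / s ^ 2 * |θ1 t * Gf b s h x - ν * θ t * (4 * R2 b x * Gf b s h2 x
          - 8 / s * q2 b x * Gf b s h1 x + 10 * Gf b s h1 x)| * √(q2 b x)
        ≤ κ / s ^ 2 * ((Bt + ν * (2 * ρ ^ 2 + 10)) * (1 + q2 b x / s) * (B * E)) * √(q2 b x) := by
          gcongr
      _ = κ / s ^ 2 * B * (Bt + ν * (2 * ρ ^ 2 + 10)) * ((1 + q2 b x / s) * √(q2 b x) * E) := by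
          ring
      _ ≤ κ / s ^ 2 * B * (Bt + ν * (2 * ρ ^ 2 + 10))
            * (4 * √s * Real.exp (-(1 / (2 * s)) * q2 b x)) := by gcongr
      _ = _ := by ring
  have k3 : ‖(Am κ a ν θ t ^ 2 * s * Gf b s h x * Gf b s h1 x) • (x - b)‖
      ≤ κ ^ 2 * B ^ 2 * ρ / s ^ 3 * Real.exp (-(1 / (2 * s)) * q2 b x) := by
    have a1 : ‖x - b‖ ≤ ρ := by
      rw [R2_eq] at hx
      refine (pow_le_pow_iff_left₀ (norm_nonneg _) hρ.le (by norm_num : (2 : ℕ) ≠ 0)).1 ?_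
      nlinarith [sq_nonneg ρ]
    rw [norm_smul, Real.norm_eq_abs, abs_mul, abs_mul, abs_mul, abs_pow, abs_of_pos hs]
    have a2 : E * E ≤ Real.exp (-(1 / (2 * s)) * q2 b x) := by
      rw [hE, ← Real.exp_add]
      refine Real.exp_le_exp.2 ?_
      have b1 : 0 ≤ 1 / (2 * s) * q2 b x := by positivity
      have b2 : 1 / s * q2 b x = 2 * (1 / (2 * s) * q2 b x) := by field_simp
      linarith
    calc |Am κ a ν θ t| ^ 2 * s * |Gf b s h x| * |Gf b s h1 x| * ‖x - b‖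
        ≤ (κ / s ^ 2) ^ 2 * s * (B * E) * (B * E) * ρ := by gcongr
      _ = κ ^ 2 * B ^ 2 * ρ / s ^ 3 * (E * E) := by field_simp
      _ ≤ _ := by gcongr
  have k4 := norm_sub_le ((κ / s ^ 2 * (θ1 t * Gf b s h x - ν * θ t * (4 * R2 b x * Gf b s h2 x
      - 8 / s * q2 b x * Gf b s h1 x + 10 * Gf b s h1 x))) • Jv b x)
      ((Am κ a ν θ t ^ 2 * s * Gf b s h x * Gf b s h1 x) • (x - b))
  rw [gf, ← hsdef]
  calc _ ≤ _ := k4
    _ ≤ 4 * κ * B * (Bt + ν * (2 * ρ ^ 2 + 10)) / s ^ 2 * √s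
        * Real.exp (-(1 / (2 * s)) * q2 b x)
        + κ ^ 2 * B ^ 2 * ρ / s ^ 3 * Real.exp (-(1 / (2 * s)) * q2 b x) := add_le_add k2 k3
    _ = _ := by ring

theorem V1f_off (hT : TCut ν θ θ1 Bt) {t : ℝ} (ht : 1 / ν < t) : V1f b h κ a ν θ θ1 t = 0 := by
  funext x
  simp [V1f, Am1, Am, hT.off0 t ht, hT.off1 t ht]

theorem gf_off (hT : TCut ν θ θ1 Bt) {t : ℝ} (ht : 1 / ν < t) :
    gf b h h1 h2 κ a ν θ θ1 t = 0 := by
  funext x
  simp [gf, Am, hT.off0 t ht, hT.off1 t ht]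

theorem sg_le (hν : 0 < ν) (ha : 0 < a) (ha1 : a ≤ 1) {t : ℝ} (ht : t ≤ 1 / ν) : sg a ν t ≤ 5 := by
  rw [le_div_iff₀ hν] at ht
  unfold sg
  nlinarith

theorem cl_zero : cl Ω (0 : E3 → E3) = 0 := by
  apply Lp.ext
  have h0 : Adm (0 : E3) 1 (0 : E3 → E3) := ⟨continuous_const, fun _ _ => rfl⟩
  filter_upwards [cl_coe (Ω := Ω) h0 one_pos, Lp.coeFn_zero E3 2 (volume.restrict Ω)] with x k1 k2
  rw [k1, k2]

/-- the norm of the time derivative -/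
theorem norm_V1 {K : ℝ} (hK : 0 ≤ K) (hν : 0 < ν) (hρ : 0 < ρ) (hB : 0 < B) (hBt : 0 < Bt)
    (hC : Cut ρ h h1 h2 B) (hT : TCut ν θ θ1 Bt) (ha : 0 < a) (ha1 : a ≤ 1) {t : ℝ} (ht : 0 ≤ t) :
    ‖cl Ω (V1f b h (K * a ^ 2) a ν θ θ1 t)‖
      ≤ 4 * K * B * (5 * Bt + 8 * ν) * √(2 * Real.pi * ρ) / a ^ 2 := by
  have hpi := Real.pi_pos
  by_cases htν : t ≤ 1 / ν
  · have hs := sg_pos (a := a) ha hν ht
    have hs5 := sg_le hν ha ha1 htν
    have hκ : 0 ≤ K * a ^ 2 := by positivity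
    have h0 := norm_cl_le (Ω := Ω) (adm_V1f (κ := K * a ^ 2) (a := a) (ν := ν) (θ := θ) (θ1 := θ1)
      (b := b) hC t) hρ hs
      (A := 4 * (K * a ^ 2) * B * (5 * Bt + 8 * ν) / sg a ν t ^ 3 * √(sg a ν t)) (by positivity)
      (fun x _ => norm_V1f_le hκ hν hB hBt hC hT hs hs5 x)
    refine h0.trans ?_
    set s := sg a ν t with hsdef
    have hsa : a ^ 2 ≤ s := by
      rw [hsdef, sg]
      have : 0 ≤ 4 * ν * t := by positivity
      linarith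
    have e1 : √(2 * Real.pi * ρ * s) = √(2 * Real.pi * ρ) * √s := Real.sqrt_mul (by positivity) _
    have e2 : √s * √s = s := Real.mul_self_sqrt hs.le
    rw [e1]
    calc 4 * (K * a ^ 2) * B * (5 * Bt + 8 * ν) / s ^ 3 * √s * (√(2 * Real.pi * ρ) * √s)
        = 4 * (K * a ^ 2) * B * (5 * Bt + 8 * ν) / s ^ 3 * √(2 * Real.pi * ρ) * (√s * √s) := by
          ring
      _ = 4 * K * B * (5 * Bt + 8 * ν) * √(2 * Real.pi * ρ) * (a ^ 2 / s ^ 2) := by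
          rw [e2]
          field_simp
      _ ≤ 4 * K * B * (5 * Bt + 8 * ν) * √(2 * Real.pi * ρ) * (1 / a ^ 2) := by
          have : a ^ 2 / s ^ 2 ≤ 1 / a ^ 2 := by
            rw [div_le_div_iff₀ (by positivity) (by positivity), one_mul]
            nlinarith [sq_nonneg a]
          gcongr
      _ = _ := by ring
  · rw [V1f_off hT (not_le.1 htν), cl_zero, norm_zero]
    positivity

/-- the norm of the residual -/
theorem norm_g {K : ℝ} (hK : 0 ≤ K) (hν : 0 < ν) (hρ : 0 < ρ) (hB : 0 < B) (hBt : 0 < Bt)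
    (hC : Cut ρ h h1 h2 B) (hT : TCut ν θ θ1 Bt) (ha : 0 < a) (ha1 : a ≤ 1) {t : ℝ} (ht : 0 ≤ t) :
    ‖cl Ω (gf b h h1 h2 (K * a ^ 2) a ν θ θ1 t)‖
      ≤ √(2 * Real.pi * ρ) * (12 * K * B * (Bt + ν * (2 * ρ ^ 2 + 10)) + K ^ 2 * B ^ 2 * ρ)
        * a ^ 2 / √(sg a ν t) ^ 3 := by
  have hpi := Real.pi_pos
  by_cases htν : t ≤ 1 / ν
  · have hs := sg_pos (a := a) ha hν ht
    have hs5 := sg_le hν ha ha1 htν
    have hκ : 0 ≤ K * a ^ 2 := by positivity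
    have h0 := norm_cl_le (Ω := Ω) (adm_gf (κ := K * a ^ 2) (a := a) (ν := ν) (θ := θ) (θ1 := θ1)
      (b := b) hC t) hρ hs
      (A := 4 * (K * a ^ 2) * B * (Bt + ν * (2 * ρ ^ 2 + 10)) / sg a ν t ^ 2 * √(sg a ν t)
        + (K * a ^ 2) ^ 2 * B ^ 2 * ρ / sg a ν t ^ 3) (by positivity)
      (fun x hx => norm_gf_le hκ hν hρ hB hBt hC hT hs hx)
    refine h0.trans ?_
    set s := sg a ν t with hsdef
    set σ := √s with hσ
    have hσ0 : 0 < σ := Real.sqrt_pos.2 hs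
    have es : s = σ ^ 2 := (Real.sq_sqrt hs.le).symm
    have hsa : a ^ 2 ≤ σ ^ 2 := by
      rw [← es, hsdef, sg]
      have : 0 ≤ 4 * ν * t := by positivity
      linarith
    have haσ : a ≤ σ := (pow_le_pow_iff_left₀ ha.le hσ0.le (by norm_num)).1 hsa
    have hσ3 : σ ≤ 3 := by
      refine (pow_le_pow_iff_left₀ hσ0.le (by norm_num) (by norm_num : (2 : ℕ) ≠ 0)).1 ?_
      rw [← es]
      linarith
    have e1 : √(2 * Real.pi * ρ * s) = √(2 * Real.pi * ρ) * σ := Real.sqrt_mul (by positivity) _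
    rw [e1, es]
    set P := √(2 * Real.pi * ρ) with hP
    set A1 := B * (Bt + ν * (2 * ρ ^ 2 + 10)) with hA1
    have hA10 : 0 < A1 := by positivity
    calc (4 * (K * a ^ 2) * B * (Bt + ν * (2 * ρ ^ 2 + 10)) / (σ ^ 2) ^ 2 * σ
          + (K * a ^ 2) ^ 2 * B ^ 2 * ρ / (σ ^ 2) ^ 3) * (P * σ)
        = P * (4 * K * A1 * a ^ 2 / σ ^ 2 + K ^ 2 * B ^ 2 * ρ * a ^ 4 / σ ^ 5) := by
          rw [hA1]
          field_simp
      _ ≤ P * (4 * K * A1 * a ^ 2 * 3 / σ ^ 3 + K ^ 2 * B ^ 2 * ρ * a ^ 2 / σ ^ 3) := by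
          have b1 : 4 * K * A1 * a ^ 2 / σ ^ 2 ≤ 4 * K * A1 * a ^ 2 * 3 / σ ^ 3 := by
            rw [div_le_div_iff₀ (by positivity) (by positivity)]
            have : σ ^ 3 ≤ 3 * σ ^ 2 := by
              calc σ ^ 3 = σ * σ ^ 2 := by ring
                _ ≤ 3 * σ ^ 2 := by gcongr
            calc 4 * K * A1 * a ^ 2 * σ ^ 3 ≤ 4 * K * A1 * a ^ 2 * (3 * σ ^ 2) := by gcongr
              _ = _ := by ring
          have b2 : K ^ 2 * B ^ 2 * ρ * a ^ 4 / σ ^ 5 ≤ K ^ 2 * B ^ 2 * ρ * a ^ 2 / σ ^ 3 := by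
            rw [div_le_div_iff₀ (by positivity) (by positivity)]
            calc K ^ 2 * B ^ 2 * ρ * a ^ 4 * σ ^ 3
                = K ^ 2 * B ^ 2 * ρ * a ^ 2 * σ ^ 3 * a ^ 2 := by ring
              _ ≤ K ^ 2 * B ^ 2 * ρ * a ^ 2 * σ ^ 3 * σ ^ 2 := by gcongr
              _ = _ := by ring
          gcongr
      _ = _ := by
          rw [hA1]
          ring
  · rw [gf_off hT (not_le.1 htν), cl_zero, norm_zero]
    positivity

end Pool.Agent.Y303.LV
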