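import Pool.Agent.Y303.LV.Weak

/-!
Classes of functions in `L²(Ω)`, norms and derivatives in time.
-/

set_option autoImplicit false
set_option linter.unusedSectionVars false

open MeasureTheory Set Filter Topology
open scoped InnerProductSpace ENNReal ContDiff NNReal

namespace Pool.Agent.Y303.LV

open H772R2.NS

variable {Ω : Set E3} {b : E3} {ρ s : ℝ}

/-- a product of two Gaussians and an indicator function -/
noncomputable def Fb (b : E3) (s ρ : ℝ) (i : Fin 3) (t : ℝ) : ℝ :=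
  if i = 2 then (Icc (b 2 - ρ) (b 2 + ρ)).indicator (fun _ => (1 : ℝ)) t
  else Real.exp (-(1 / s) * (t - b i) ^ 2)

theorem Fb_int (hs : 0 < s) (hρ : 0 < ρ) (i : Fin 3) : Integrable (Fb b s ρ i) ∧
    ∫ t, Fb b s ρ i t = if i = 2 then 2 * ρ else √(Real.pi * s) := by
  by_cases hi : i = 2
  · have e : Fb b s ρ i = (Icc (b 2 - ρ) (b 2 + ρ)).indicator (fun _ => (1 : ℝ)) := by
      funext t
      simp [Fb, hi]
    rw [e, if_pos hi]
    constructor
    · rw [integrable_indicator_iff measurableSet_Icc]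
      exact integrableOn_const (by simp)
    · rw [integral_indicator measurableSet_Icc]
      simp only [integral_const, smul_eq_mul, mul_one, measureReal_restrict_apply_univ,
        Real.volume_real_Icc]
      rw [max_eq_left (by linarith)]
      ring
  · have e : Fb b s ρ i = fun t => Real.exp (-(1 / s) * (t - b i) ^ 2) := by
      funext t
      simp [Fb, hi]
    rw [e, if_neg hi]
    constructor
    · exact (integrable_exp_neg_mul_sq (by positivity : (0 : ℝ) < 1 / s)).comp_sub_right (b i)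
    · rw [integral_sub_right_eq_self (fun t => Real.exp (-(1 / s) * t ^ 2)) (b i),
        integral_gaussian]
      congr 1
      field_simp

/-- the Gaussian on a slab -/
noncomputable def Gs (b : E3) (s ρ : ℝ) (x : E3) : ℝ := ∏ i, Fb b s ρ i (x i)

theorem Gs_int (hs : 0 < s) (hρ : 0 < ρ) : Integrable (Gs b s ρ) ∧
    ∫ x, Gs b s ρ x = 2 * Real.pi * ρ * s := by
  have hmp := PiLp.volume_preserving_toLp (Fin 3)
  have hme : MeasurableEmbedding (WithLp.toLp 2 : (Fin 3 → ℝ) → E3) :=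
    (MeasurableEquiv.toLp 2 (Fin 3 → ℝ)).measurableEmbedding
  constructor
  · rw [← hmp.integrable_comp_emb hme]
    exact Integrable.fintype_prod (μ := fun _ : Fin 3 => (volume : Measure ℝ))
      (f := fun i => Fb b s ρ i) (fun i => (Fb_int hs hρ i).1)
  · rw [← hmp.integral_comp hme]
    have h := integral_fintype_prod_volume_eq_prod (𝕜 := ℝ) (ι := Fin 3) (E := fun _ => ℝ)
      (fun i => Fb b s ρ i)
    calc ∫ x : Fin 3 → ℝ, Gs b s ρ (WithLp.toLp 2 x) = ∏ i, ∫ t, Fb b s ρ i t := h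
      _ = 2 * Real.pi * ρ * s := by
        rw [Fin.prod_univ_three, (Fb_int hs hρ 0).2, (Fb_int hs hρ 1).2, (Fb_int hs hρ 2).2]
        simp only [Fin.isValue, Fin.reduceEq, if_false, if_true]
        rw [Real.mul_self_sqrt (by positivity)]
        ring

theorem le_Gs {x : E3} (hρ : 0 < ρ) (hx : R2 b x ≤ ρ ^ 2) :
    Real.exp (-(1 / s) * q2 b x) ≤ Gs b s ρ x := by
  have h2 : x 2 ∈ Icc (b 2 - ρ) (b 2 + ρ) := by
    have h1 : yc b 2 x * yc b 2 x ≤ ρ ^ 2 := by
      have := q2_nonneg b x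
      unfold R2 at hx
      unfold q2 at this
      linarith
    have h3 : |yc b 2 x| ≤ ρ := by
      refine abs_le_of_sq_le_sq ?_ hρ.le
      nlinarith
    rw [abs_le] at h3
    simp only [yc] at h3
    exact ⟨by linarith [h3.1], by linarith [h3.2]⟩
  refine le_of_eq ?_
  unfold Gs
  rw [Fin.prod_univ_three]
  simp only [Fb, Fin.isValue, Fin.reduceEq, if_false, if_true]
  rw [indicator_of_mem h2, mul_one, ← Real.exp_add]
  congr 1
  simp only [q2, yc]
  ring

theorem Gs_nonneg (x : E3) : 0 ≤ Gs b s ρ x := by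
  unfold Gs
  refine Finset.prod_nonneg fun i _ => ?_
  unfold Fb
  split_ifs
  · exact indicator_nonneg (fun _ _ => zero_le_one) _
  · positivity

/-- the class of a function -/
noncomputable def cl (Ω : Set E3) (F : E3 → E3) : L2V Ω :=
  open Classical in if h : MemLp F 2 (volume.restrict Ω) then h.toLp F else 0

/-- admissible functions: continuous, with support in the ball -/
structure Adm (b : E3) (ρ : ℝ) (F : E3 → E3) : Prop where
  cont : Continuous F
  off : ∀ x, ρ ^ 2 / 2 < R2 b x → F x = 0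

theorem Adm.compact {F : E3 → E3} (hF : Adm b ρ F) (hρ : 0 < ρ) : HasCompactSupport F := by
  refine HasCompactSupport.of_support_subset_isCompact (isCompact_closedBall b ρ) ?_
  intro x hx
  by_contra hcon
  refine hx (hF.off x ?_)
  rw [Metric.mem_closedBall, dist_eq_norm, not_le] at hcon
  rw [R2_eq]
  nlinarith

theorem Adm.memLp {F : E3 → E3} (hF : Adm b ρ F) (hρ : 0 < ρ) : MemLp F 2 (volume.restrict Ω) :=
  (hF.cont.memLp_of_hasCompactSupport (hF.compact hρ)).restrict _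

theorem Adm.sub {F G : E3 → E3} (hF : Adm b ρ F) (hG : Adm b ρ G) :
    Adm b ρ (fun x => F x - G x) :=
  ⟨hF.cont.sub hG.cont, fun x hx => by rw [hF.off x hx, hG.off x hx, sub_zero]⟩

theorem Adm.smul {F : E3 → E3} (c : ℝ) (hF : Adm b ρ F) : Adm b ρ (fun x => c • F x) :=
  ⟨hF.cont.const_smul c, fun x hx => by rw [hF.off x hx, smul_zero]⟩

theorem cl_coe {F : E3 → E3} (hF : Adm b ρ F) (hρ : 0 < ρ) :
    (cl Ω F : E3 → E3) =ᵐ[volume.restrict Ω] F := by
  unfold cl
  rw [dif_pos (hF.memLp hρ)]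
  exact MemLp.coeFn_toLp _

theorem cl_sub {F G : E3 → E3} (hF : Adm b ρ F) (hG : Adm b ρ G) (hρ : 0 < ρ) :
    cl Ω (fun x => F x - G x) = cl Ω F - cl Ω G := by
  apply Lp.ext
  filter_upwards [cl_coe (Ω := Ω) hF hρ, cl_coe (Ω := Ω) hG hρ, cl_coe (Ω := Ω) (hF.sub hG) hρ,
    Lp.coeFn_sub (cl Ω F) (cl Ω G)] with x h1 h2 h3 h4
  rw [h3, h4, Pi.sub_apply, h1, h2]

theorem cl_smul {F : E3 → E3} (c : ℝ) (hF : Adm b ρ F) (hρ : 0 < ρ) :
    cl Ω (fun x => c • F x) = c • cl Ω F := by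
  apply Lp.ext
  filter_upwards [cl_coe (Ω := Ω) hF hρ, cl_coe (Ω := Ω) (hF.smul c) hρ,
    Lp.coeFn_smul c (cl Ω F)] with x h1 h3 h4
  rw [h3, h4, Pi.smul_apply, h1]

theorem norm_cl_sq {F : E3 → E3} (hF : Adm b ρ F) (hρ : 0 < ρ) :
    ‖cl Ω F‖ ^ 2 = ∫ x in Ω, ‖F x‖ ^ 2 := by
  rw [← real_inner_self_eq_norm_sq, L2.inner_def]
  refine integral_congr_ae ?_
  filter_upwards [cl_coe (Ω := Ω) hF hρ] with x hx
  rw [hx, real_inner_self_eq_norm_sq]

theorem sq_integrable {F : E3 → E3} (hF : Adm b ρ F) (hρ : 0 < ρ) :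
    Integrable (fun x => ‖F x‖ ^ 2) (volume.restrict Ω) := by
  refine Integrable.mono_measure ?_ Measure.restrict_le_self
  refine (hF.cont.norm.pow 2).integrable_of_hasCompactSupport ?_
  exact (hF.compact hρ).comp_left (g := fun y => ‖y‖ ^ 2) (by simp)

theorem norm_cl_le {F : E3 → E3} (hF : Adm b ρ F) (hρ : 0 < ρ) (hs : 0 < s) {A : ℝ} (hA : 0 ≤ A)
    (hle : ∀ x, R2 b x ≤ ρ ^ 2 / 2 → ‖F x‖ ≤ A * Real.exp (-(1 / (2 * s)) * q2 b x)) :
    ‖cl Ω F‖ ≤ A * √(2 * Real.pi * ρ * s) := by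
  have h0 : ‖cl Ω F‖ ^ 2 ≤ (A * √(2 * Real.pi * ρ * s)) ^ 2 := by
    rw [norm_cl_sq hF hρ, mul_pow, Real.sq_sqrt (by positivity), ← (Gs_int (b := b) hs hρ).2,
      ← integral_const_mul]
    refine (integral_mono (sq_integrable hF hρ) (((Gs_int hs hρ).1.const_mul (A ^ 2)).mono_measure
      Measure.restrict_le_self) fun x => ?_).trans
      (setIntegral_le_integral ((Gs_int hs hρ).1.const_mul (A ^ 2))
        (Eventually.of_forall fun x => mul_nonneg (by positivity) (Gs_nonneg x)))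
    by_cases hx : R2 b x ≤ ρ ^ 2 / 2
    · have h1 := pow_le_pow_left₀ (norm_nonneg _) (hle x hx) 2
      refine h1.trans ?_
      rw [mul_pow]
      refine mul_le_mul_of_nonneg_left ?_ (by positivity)
      refine le_trans (le_of_eq ?_) (le_Gs (s := s) hρ (hx.trans (by nlinarith [sq_nonneg ρ])))
      rw [← Real.exp_nat_mul]
      congr 1
      push_cast
      field_simp
    · rw [hF.off x (not_le.1 hx), norm_zero]
      simp only [ne_eq, OfNat.ofNat_ne_zero, not_false_eq_true, zero_pow]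
      exact mul_nonneg (by positivity) (Gs_nonneg x)
  exact (pow_le_pow_iff_left₀ (norm_nonneg _) (by positivity) (by norm_num)).1 h0

/-- inner product with a test field -/
theorem cl_inner {F ψ : E3 → E3} {p : L2V Ω} (hF : Adm b ρ F) (hρ : 0 < ρ)
    (hm : MeasurableSet Ω) (hB : Metric.ball b ρ ⊆ Ω) (hp : p =ᵐ[volume.restrict Ω] ψ) :
    ⟪cl Ω F, p⟫_ℝ = ∫ x, ∑ i, F x i * ψ x i := by
  rw [L2.inner_def]
  calc ∫ x in Ω, ⟪cl Ω F x, p x⟫_ℝ = ∫ x in Ω, ∑ i, F x i * ψ x i := by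
        refine integral_congr_ae ?_
        filter_upwards [cl_coe (Ω := Ω) hF hρ, hp] with x h1 h2
        rw [h1, h2, inner_E3]
    _ = ∫ x, ∑ i, F x i * ψ x i := by
        rw [← integral_indicator hm]
        refine integral_congr_ae (Eventually.of_forall fun x => ?_)
        by_cases h : x ∈ Ω
        · simp only [indicator_of_mem h]
        · simp only [indicator_of_notMem h]
          have : F x = 0 := by
            refine hF.off x ?_
            have h3 : x ∉ Metric.ball b ρ := fun h' => h (hB h')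
            rw [Metric.mem_ball, dist_eq_norm, not_lt] at h3
            rw [R2_eq]
            nlinarith [sq_pos_of_pos hρ]
          rw [this]
          simp

/-- convergence in `L²` -/
theorem tendsto_cl {ι : Type} {l : Filter ι} [l.IsCountablyGenerated] {f : ι → E3 → E3}
    (hρ : 0 < ρ) (hf : ∀ᶠ i in l, Adm b ρ (f i)) {C : ℝ} (hC : ∀ᶠ i in l, ∀ x, ‖f i x‖ ≤ C)
    (hlim : ∀ x, Tendsto (fun i => f i x) l (𝓝 0)) :
    Tendsto (fun i => ‖cl Ω (f i)‖) l (𝓝 0) := by
  have h1 : Tendsto (fun i => ∫ x in Ω, ‖f i x‖ ^ 2) l (𝓝 (∫ x in Ω, (0 : ℝ))) := by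
    refine tendsto_integral_filter_of_dominated_convergence
      ((Metric.closedBall b ρ).indicator fun _ => C ^ 2) ?_ ?_ ?_ ?_
    · filter_upwards [hf] with i hi
      exact (hi.cont.norm.pow 2).aestronglyMeasurable
    · filter_upwards [hf, hC] with i hi hi2
      refine Eventually.of_forall fun x => ?_
      rw [Real.norm_of_nonneg (by positivity)]
      by_cases hx : x ∈ Metric.closedBall b ρ
      · rw [indicator_of_mem hx]
        exact pow_le_pow_left₀ (norm_nonneg _) (hi2 x) 2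
      · rw [indicator_of_notMem hx]
        rw [Metric.mem_closedBall, dist_eq_norm, not_le] at hx
        rw [hi.off x (by rw [R2_eq]; nlinarith)]
        simp
    · refine Integrable.mono_measure ?_ Measure.restrict_le_self
      rw [integrable_indicator_iff Metric.isClosed_closedBall.measurableSet]
      exact integrableOn_const measure_closedBall_lt_top.ne
    · refine Eventually.of_forall fun x => ?_
      have := ((hlim x).norm.pow 2)
      simpa using this
  have h2 : Tendsto (fun i => √(∫ x in Ω, ‖f i x‖ ^ 2)) l (𝓝 0) := by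
    have h3 := (Real.continuous_sqrt.tendsto _).comp h1
    rw [integral_zero, Real.sqrt_zero] at h3
    exact h3
  refine h2.congr' ?_
  filter_upwards [hf] with i hi
  rw [← norm_cl_sq hi hρ, Real.sqrt_sq (norm_nonneg _)]

theorem continuousAt_cl {f : ℝ → E3 → E3} {t₀ : ℝ} (hρ : 0 < ρ)
    (hf : ∀ᶠ t in 𝓝 t₀, Adm b ρ (f t)) {C : ℝ} (hC : ∀ᶠ t in 𝓝 t₀, ∀ x, ‖f t x‖ ≤ C)
    (hlim : ∀ x, ContinuousAt (fun t => f t x) t₀) : ContinuousAt (fun t => cl Ω (f t)) t₀ := by
  rw [ContinuousAt, tendsto_iff_norm_sub_tendsto_zero]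
  have h0 := hf.self_of_nhds
  have hC0 := hC.self_of_nhds
  have h1 := tendsto_cl (Ω := Ω) (b := b) (l := 𝓝 t₀) (f := fun t x => f t x - f t₀ x) hρ
    (by filter_upwards [hf] with t ht using ht.sub h0) (C := C + C)
    (by filter_upwards [hC] with t ht x using (norm_sub_le _ _).trans (add_le_add (ht x) (hC0 x)))
    (fun x => by
      have h3 : Tendsto (fun t => f t x - f t₀ x) (𝓝 t₀) (𝓝 (f t₀ x - f t₀ x)) :=
        (show Tendsto (fun t => f t x) (𝓝 t₀) (𝓝 (f t₀ x)) from hlim x).sub tendsto_const_nhds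
      rwa [sub_self] at h3)
  refine h1.congr' ?_
  filter_upwards [hf] with t ht
  rw [cl_sub ht h0 hρ]

theorem hasDerivAt_cl {f f1 : ℝ → E3 → E3} {t₀ δ : ℝ} (hρ : 0 < ρ) (hδ : 0 < δ)
    (hf : ∀ t ∈ Metric.ball t₀ δ, Adm b ρ (f t)) (hf1 : Adm b ρ (f1 t₀)) {C : ℝ}
    (hC : ∀ t ∈ Metric.ball t₀ δ, ∀ x, ‖f1 t x‖ ≤ C)
    (hd : ∀ t ∈ Metric.ball t₀ δ, ∀ x, HasDerivAt (fun t => f t x) (f1 t x) t) :
    HasDerivAt (fun t => cl Ω (f t)) (cl Ω (f1 t₀)) t₀ := by
  rw [hasDerivAt_iff_tendsto_slope_zero, tendsto_iff_norm_sub_tendsto_zero]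
  have ht0 : t₀ ∈ Metric.ball t₀ δ := Metric.mem_ball_self hδ
  have hball : ∀ᶠ r in 𝓝[≠] (0 : ℝ), t₀ + r ∈ Metric.ball t₀ δ := by
    have h1 : ∀ᶠ r in 𝓝 (0 : ℝ), r ∈ Metric.ball (0 : ℝ) δ := Metric.ball_mem_nhds _ hδ
    refine (h1.filter_mono nhdsWithin_le_nhds).mono fun r hr => ?_
    rw [Metric.mem_ball, Real.dist_eq] at hr ⊢
    simpa using hr
  have hadm : ∀ᶠ r in 𝓝[≠] (0 : ℝ), Adm b ρ (fun x => r⁻¹ • (f (t₀ + r) x - f t₀ x) - f1 t₀ x) := by
    filter_upwards [hball] with r hr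
    exact (((hf _ hr).sub (hf _ ht0)).smul r⁻¹).sub hf1
  have hlip : ∀ᶠ r in 𝓝[≠] (0 : ℝ), ∀ x, ‖r⁻¹ • (f (t₀ + r) x - f t₀ x) - f1 t₀ x‖ ≤ C + C := by
    filter_upwards [hball, self_mem_nhdsWithin] with r hr hr0 x
    have h1 : ‖f (t₀ + r) x - f t₀ x‖ ≤ C * ‖t₀ + r - t₀‖ :=
      (convex_ball t₀ δ).norm_image_sub_le_of_norm_hasDerivWithin_le
        (fun t ht => (hd t ht x).hasDerivWithinAt) (fun t ht => hC t ht x) ht0 hr
    rw [add_sub_cancel_left] at h1
    refine (norm_sub_le _ _).trans (add_le_add ?_ (hC t₀ ht0 x))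
    rw [norm_smul, norm_inv]
    have hr' : 0 < ‖r‖ := norm_pos_iff.2 hr0
    rw [inv_mul_le_iff₀ hr', mul_comm]
    exact h1
  have h2 := tendsto_cl (Ω := Ω) (b := b) (l := 𝓝[≠] (0 : ℝ)) hρ hadm hlip (fun x => by
    have h3 := (hasDerivAt_iff_tendsto_slope_zero.1 (hd t₀ ht0 x)).sub
      (tendsto_const_nhds (x := f1 t₀ x))
    simpa using h3)
  refine h2.congr' ?_
  filter_upwards [hball] with r hr
  have e1 := cl_sub (Ω := Ω) (((hf _ hr).sub (hf _ ht0)).smul r⁻¹) hf1 hρ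
  have e2 := cl_smul (Ω := Ω) r⁻¹ ((hf _ hr).sub (hf _ ht0)) hρ
  have e3 := cl_sub (Ω := Ω) (hf _ hr) (hf _ ht0) hρ
  rw [e1, e2, e3]

/-- an elementary inequality -/
theorem elem_ineq {q s : ℝ} (hq : 0 ≤ q) (hs : 0 < s) :
    (1 + q / s) * √q * Real.exp (-(1 / s) * q) ≤ 4 * √s * Real.exp (-(1 / (2 * s)) * q) := by
  set y : ℝ := √q / √s with hy
  have hs' : 0 < √s := Real.sqrt_pos.2 hs
  have hy0 : 0 ≤ y := by positivity
  have e1 : q / s = y ^ 2 := by rw [hy, div_pow, Real.sq_sqrt hq, Real.sq_sqrt hs.le]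
  have e2 : √q = y * √s := by rw [hy]; field_simp
  have h1 : (1 + y ^ 2) * y ≤ 4 * Real.exp (y ^ 2 / 2) := by
    have h2 : 1 + y ^ 2 / 2 + (y ^ 2 / 2) ^ 2 / 2 ≤ Real.exp (y ^ 2 / 2) :=
      Real.quadratic_le_exp_of_nonneg (by positivity)
    nlinarith [sq_nonneg (y - 1), sq_nonneg (y * (y - 1))]
  have e3 : Real.exp (-(1 / (2 * s)) * q) = Real.exp (y ^ 2 / 2) * Real.exp (-(1 / s) * q) := by
    rw [← Real.exp_add]
    congr 1
    rw [← e1]
    field_simp
    ring
  rw [e1, e2, e3]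
  have hE := Real.exp_pos (-(1 / s) * q)
  calc (1 + y ^ 2) * (y * √s) * Real.exp (-(1 / s) * q)
      = ((1 + y ^ 2) * y) * (√s * Real.exp (-(1 / s) * q)) := by ring
    _ ≤ (4 * Real.exp (y ^ 2 / 2)) * (√s * Real.exp (-(1 / s) * q)) := by gcongr
    _ = _ := by ring

end Pool.Agent.Y303.LV
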