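import Pool.Agent.H772R2.NS.Space3
import Pool.Agent.W52.TQ.Univ

/-!
A Gaussian vortex with a cut-off: explicit derivatives.
-/

set_option autoImplicit false
set_option linter.unusedSectionVars false

open MeasureTheory Set Filter Topology
open scoped InnerProductSpace ENNReal ContDiff NNReal

namespace Pool.Agent.Y303.LV

open H772R2.NS
open Pool.Agent.W52.TQ (ibp tns)

/-- partial derivatives -/
def PD (f : E3 → ℝ) (f' : ℝ) (x : E3) (j : Fin 3) : Prop :=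
  DifferentiableAt ℝ f x ∧ fderiv ℝ f x (ev j) = f'

theorem PD.mul {f g : E3 → ℝ} {f' g' : ℝ} {x : E3} {j : Fin 3} (hf : PD f f' x j)
    (hg : PD g g' x j) : PD (fun x => f x * g x) (f' * g x + f x * g') x j := by
  refine ⟨hf.1.mul hg.1, ?_⟩
  rw [fderiv_fun_mul hf.1 hg.1]
  simp only [ContinuousLinearMap.add_apply, ContinuousLinearMap.smul_apply, smul_eq_mul, hf.2, hg.2]
  ring

theorem PD.add {f g : E3 → ℝ} {f' g' : ℝ} {x : E3} {j : Fin 3} (hf : PD f f' x j)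
    (hg : PD g g' x j) : PD (fun x => f x + g x) (f' + g') x j := by
  refine ⟨hf.1.add hg.1, ?_⟩
  rw [fderiv_fun_add hf.1 hg.1]
  simp only [ContinuousLinearMap.add_apply, hf.2, hg.2]

theorem PD.neg {f : E3 → ℝ} {f' : ℝ} {x : E3} {j : Fin 3} (hf : PD f f' x j) :
    PD (fun x => -f x) (-f') x j := by
  refine ⟨hf.1.neg, ?_⟩
  rw [fderiv_fun_neg]
  simp only [ContinuousLinearMap.neg_apply, hf.2]

theorem PD.const (c : ℝ) (x : E3) (j : Fin 3) : PD (fun _ => c) 0 x j :=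
  ⟨differentiableAt_const _, by simp⟩

theorem PD.const_mul {f : E3 → ℝ} {f' : ℝ} {x : E3} {j : Fin 3} (c : ℝ) (hf : PD f f' x j) :
    PD (fun x => c * f x) (c * f') x j := by
  have := (PD.const c x j).mul hf
  simpa using this

theorem PD.comp {f : E3 → ℝ} {f' : ℝ} {x : E3} {j : Fin 3} (hf : PD f f' x j) {k : ℝ → ℝ}
    {k' : ℝ} (hk : HasDerivAt k k' (f x)) : PD (fun x => k (f x)) (k' * f') x j := by
  have h := hk.comp_hasFDerivAt x hf.1.hasFDerivAt
  refine ⟨h.differentiableAt, ?_⟩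
  have h2 : fderiv ℝ (fun x => k (f x)) x = k' • fderiv ℝ f x := h.fderiv
  rw [h2]
  simp only [ContinuousLinearMap.smul_apply, smul_eq_mul, hf.2]

theorem PD.eq {f : E3 → ℝ} {f' f'' : ℝ} {x : E3} {j : Fin 3} (hf : PD f f' x j) (h : f' = f'') :
    PD f f'' x j := h ▸ hf

/-- the coordinates with centre `b` -/
def yc (b : E3) (i : Fin 3) (x : E3) : ℝ := x i - b i

theorem pd_yc (b : E3) (i : Fin 3) (x : E3) (j : Fin 3) :
    PD (yc b i) (if i = j then 1 else 0) x j := by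
  have h : HasFDerivAt (yc b i) (EuclideanSpace.proj (𝕜 := ℝ) i : E3 →L[ℝ] ℝ) x :=
    ((EuclideanSpace.proj (𝕜 := ℝ) i : E3 →L[ℝ] ℝ).hasFDerivAt (x := x)).sub_const (b i)
  refine ⟨h.differentiableAt, ?_⟩
  rw [h.fderiv]
  simp [ev]

/-- the square of the distance from `b` -/
def R2 (b x : E3) : ℝ := yc b 0 x * yc b 0 x + yc b 1 x * yc b 1 x + yc b 2 x * yc b 2 x

/-- the square of the distance from the vertical axis through `b` -/
def q2 (b x : E3) : ℝ := yc b 0 x * yc b 0 x + yc b 1 x * yc b 1 x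

/-- `1` for the horizontal directions -/
def dl (j : Fin 3) : ℝ := if j = 2 then 0 else 1

theorem pd_R2 (b x : E3) (j : Fin 3) : PD (R2 b) (2 * yc b j x) x j := by
  have h := (((pd_yc b 0 x j).mul (pd_yc b 0 x j)).add ((pd_yc b 1 x j).mul (pd_yc b 1 x j))).add
    ((pd_yc b 2 x j).mul (pd_yc b 2 x j))
  refine h.eq ?_
  fin_cases j <;> simp <;> ring

theorem pd_q2 (b x : E3) (j : Fin 3) : PD (q2 b) (2 * dl j * yc b j x) x j := by
  have h := ((pd_yc b 0 x j).mul (pd_yc b 0 x j)).add ((pd_yc b 1 x j).mul (pd_yc b 1 x j))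
  refine h.eq ?_
  fin_cases j <;> simp [dl] <;> ring

/-- cut-off times Gaussian -/
noncomputable def Gf (b : E3) (s : ℝ) (k : ℝ → ℝ) (x : E3) : ℝ :=
  k (R2 b x) * Real.exp (-(1 / s) * q2 b x)

theorem pd_Gf (b x : E3) (s : ℝ) {k k1 : ℝ → ℝ} (hk : ∀ r, HasDerivAt k (k1 r) r) (j : Fin 3) :
    PD (Gf b s k) (yc b j x * (2 * Gf b s k1 x - 2 / s * dl j * Gf b s k x)) x j := by
  have h1 := (pd_R2 b x j).comp (hk (R2 b x))
  have h2 := ((pd_q2 b x j).const_mul (-(1 / s))).comp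
    (Real.hasDerivAt_exp (-(1 / s) * q2 b x))
  refine (h1.mul h2).eq ?_
  simp only [Gf]
  ring

theorem cd_yc (b : E3) (i : Fin 3) : ContDiff ℝ ∞ (yc b i) :=
  ((EuclideanSpace.proj (𝕜 := ℝ) i : E3 →L[ℝ] ℝ).contDiff).sub contDiff_const

theorem cd_R2 (b : E3) : ContDiff ℝ ∞ (R2 b) :=
  (((cd_yc b 0).mul (cd_yc b 0)).add ((cd_yc b 1).mul (cd_yc b 1))).add
    ((cd_yc b 2).mul (cd_yc b 2))

theorem cd_q2 (b : E3) : ContDiff ℝ ∞ (q2 b) :=
  ((cd_yc b 0).mul (cd_yc b 0)).add ((cd_yc b 1).mul (cd_yc b 1))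

theorem cd_Gf (b : E3) (s : ℝ) {k : ℝ → ℝ} (hk : ContDiff ℝ ∞ k) : ContDiff ℝ ∞ (Gf b s k) :=
  (hk.comp (cd_R2 b)).mul (Real.contDiff_exp.comp (contDiff_const.mul (cd_q2 b)))

/-- the components of the rotation field -/
def Jc (b : E3) (x : E3) (i : Fin 3) : ℝ := if i = 0 then yc b 1 x else if i = 1 then -yc b 0 x else 0

/-- the vortex -/
noncomputable def vf (b : E3) (s : ℝ) (h : ℝ → ℝ) (x : E3) : E3 :=
  WithLp.toLp 2 fun i => Gf b s h x * Jc b x i

theorem vf_apply (b : E3) (s : ℝ) (h : ℝ → ℝ) (x : E3) (i : Fin 3) :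
    vf b s h x i = Gf b s h x * Jc b x i := rfl

theorem cd_Jc (b : E3) (i : Fin 3) : ContDiff ℝ ∞ (fun x => Jc b x i) := by
  fin_cases i
  · exact cd_yc b 1
  · exact (cd_yc b 0).neg
  · exact contDiff_const

theorem cd_vf (b : E3) (s : ℝ) {h : ℝ → ℝ} (hh : ContDiff ℝ ∞ h) : ContDiff ℝ ∞ (vf b s h) := by
  rw [contDiff_euclidean]
  intro i
  exact (cd_Gf b s hh).mul (cd_Jc b i)

/-- the derivative of the rotation field -/
def Jd (i j : Fin 3) : ℝ :=
  if i = 0 ∧ j = 1 then 1 else if i = 1 ∧ j = 0 then -1 else 0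

theorem pd_Jc (b x : E3) (i j : Fin 3) : PD (fun x => Jc b x i) (Jd i j) x j := by
  fin_cases i
  · refine (pd_yc b 1 x j).eq ?_
    fin_cases j <;> simp [Jd]
  · refine (pd_yc b 0 x j).neg.eq ?_
    fin_cases j <;> simp [Jd]
  · refine (PD.const 0 x j).eq ?_
    fin_cases j <;> simp [Jd]

/-- the Jacobian matrix of the vortex -/
theorem jac_vf (b x : E3) (s : ℝ) {h h1 : ℝ → ℝ} (hh : ContDiff ℝ ∞ h)
    (hd : ∀ r, HasDerivAt h (h1 r) r) (i j : Fin 3) :
    jac (vf b s h) x (i, j) = yc b j x * (2 * Gf b s h1 x - 2 / s * dl j * Gf b s h x) * Jc b x i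
      + Gf b s h x * Jd i j := by
  rw [jac_apply, ← fderiv_coord (cd_vf b s hh)]
  exact ((pd_Gf b x s hd j).mul (pd_Jc b x i j)).2

/-- the Laplace operator -/
noncomputable def lap (v : E3 → E3) (x : E3) (i : Fin 3) : ℝ :=
  ∑ j, fderiv ℝ (fun y => jac v y (i, j)) x (ev j)

theorem lap_vf (b x : E3) {s : ℝ} (hs : s ≠ 0) {h h1 h2 : ℝ → ℝ} (hh : ContDiff ℝ ∞ h)
    (hd : ∀ r, HasDerivAt h (h1 r) r) (hd1 : ∀ r, HasDerivAt h1 (h2 r) r) (i : Fin 3) :
    lap (vf b s h) x i = (4 * R2 b x * Gf b s h2 x - 8 / s * q2 b x * Gf b s h1 x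
      + 4 / s ^ 2 * q2 b x * Gf b s h x + 10 * Gf b s h1 x - 8 / s * Gf b s h x) * Jc b x i := by
  have key : ∀ j, fderiv ℝ (fun y => jac (vf b s h) y (i, j)) x (ev j)
      = ((1 * (2 * Gf b s h1 x - 2 / s * dl j * Gf b s h x) + yc b j x * (2 * (yc b j x
        * (2 * Gf b s h2 x - 2 / s * dl j * Gf b s h1 x)) + -(2 / s * dl j * (yc b j x
        * (2 * Gf b s h1 x - 2 / s * dl j * Gf b s h x))))) * Jc b x i
        + yc b j x * (2 * Gf b s h1 x - 2 / s * dl j * Gf b s h x) * Jd i j)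
        + (yc b j x * (2 * Gf b s h1 x - 2 / s * dl j * Gf b s h x)) * Jd i j := by
    intro j
    have e : (fun y => jac (vf b s h) y (i, j)) = fun y =>
        (yc b j y * (2 * Gf b s h1 y + -(2 / s * dl j * Gf b s h y))) * Jc b y i
          + Jd i j * Gf b s h y := by
      funext y
      rw [jac_vf b y s hh hd]
      ring
    rw [e]
    have a0 : PD (yc b j) 1 x j := (pd_yc b j x j).eq (by simp)
    have a1 := (pd_Gf b x s hd1 j).const_mul 2
    have a2 := ((pd_Gf b x s hd j).const_mul (2 / s * dl j)).neg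
    have a3 := ((a0.mul (a1.add a2)).mul (pd_Jc b x i j)).add
      ((pd_Gf b x s hd j).const_mul (Jd i j))
    rw [a3.2]
    ring
  unfold lap
  simp only [key, Fin.sum_univ_three]
  fin_cases i
  · simp only [Jc, Jd, dl, R2, q2]
    simp
    field_simp
    ring
  · simp only [Jc, Jd, dl, R2, q2]
    simp
    field_simp
    ring
  · simp [Jc, Jd]

theorem Jc_y (b x : E3) : Jc b x 0 * yc b 0 x + Jc b x 1 * yc b 1 x = 0 := by
  simp [Jc]
  ring

theorem div_vf (b x : E3) (s : ℝ) {h h1 : ℝ → ℝ} (hh : ContDiff ℝ ∞ h)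
    (hd : ∀ r, HasDerivAt h (h1 r) r) : ∑ i, jac (vf b s h) x (i, i) = 0 := by
  simp only [jac_vf b x s hh hd, Fin.sum_univ_three]
  simp [Jc, Jd, dl]
  ring

/-- `(v·∇)v` is a gradient up to a small term -/
theorem adv_vf (b x : E3) {s : ℝ} (hs : s ≠ 0) {h h1 : ℝ → ℝ} (hh : ContDiff ℝ ∞ h)
    (hd : ∀ r, HasDerivAt h (h1 r) r) (i : Fin 3) :
    ∑ j, jac (vf b s h) x (i, j) * vf b s h x j
      = fderiv ℝ (fun y => s / 4 * (Gf b s h y * Gf b s h y)) x (ev i)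
        - s * Gf b s h x * Gf b s h1 x * yc b i x := by
  have a := (((pd_Gf b x s hd i).mul (pd_Gf b x s hd i)).const_mul (s / 4)).2
  rw [a]
  simp only [jac_vf b x s hh hd, Fin.sum_univ_three, vf_apply]
  fin_cases i
  · simp [Jc, Jd, dl]
    field_simp
    ring
  · simp [Jc, Jd, dl]
    field_simp
    ring
  · simp [Jc, Jd, dl]
    field_simp
    ring

end Pool.Agent.Y303.LV
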