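import Pool.Agent.Y303.NF.Apri

/-!
Strong solutions near an approximate solution, in the abstract frame.
-/

set_option autoImplicit false
set_option linter.unusedSectionVars false

open MeasureTheory Set Filter Topology
open scoped InnerProductSpace

namespace Pool.Agent.Y303.LV

open Pool.Agent.Y303.RA Pool.Agent.Y303.NF
open Pool.Agent.W795.TQ
open Pool.Agent.W918.ES (gronL1)
open H772R2.NSR (Frame prim_cont memLp_ii ae_deriv_of_prim)
open H772R2.NSG (St ii_of_int int_inner norm_m_le mem_cont)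
open Pool.Agent.W790.TQ (toSt sq_prim)

variable {H K : Type} [NormedAddCommGroup H] [InnerProductSpace ℝ H] [CompleteSpace H]
  [NormedAddCommGroup K] [InnerProductSpace ℝ K] [CompleteSpace K]
  {W : Submodule ℝ (H × K)} {m : H → K} {C c ν T τ : ℝ} {u u1 : ℝ → H} {z z1 : ℝ → K}

/-- Approximate solutions. -/
structure Appr (W : Submodule ℝ (H × K)) (m : H → K) (ν T : ℝ) (V V1 g : ℝ → H) (D : ℝ → K)
    (N γ : ℝ → ℝ) : Prop where
  mem : ∀ t ∈ Icc 0 T, (V t, D t) ∈ W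
  V1m : MemLp V1 2 (volume.restrict (Ioc 0 T))
  pV : ∀ a b, 0 ≤ a → a ≤ b → b ≤ T → V b - V a = ∫ s in a..b, V1 s
  eqn : ∀ t ∈ Icc 0 T, ∀ p ∈ W, ⟪V1 t, p.1⟫_ℝ = ⟪m (V t) - ν • D t, p.2⟫_ℝ + ⟪g t, p.1⟫_ℝ
  tri : ∀ t ∈ Icc 0 T, ∀ p ∈ W, |⟪m p.1, D t⟫_ℝ| ≤ N t * (‖p.1‖ * ‖p.2‖)
  gle : ∀ t ∈ Icc 0 T, ‖g t‖ ≤ γ t
  N0 : ∀ t, 0 ≤ N t
  Nc : ContinuousOn N (Icc 0 T)
  γc : ContinuousOn γ (Icc 0 T)

theorem Appr.mono {V V1 g : ℝ → H} {D : ℝ → K} {N γ : ℝ → ℝ} (A : Appr W m ν T V V1 g D N γ)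
    (h : τ ≤ T) : Appr W m ν τ V V1 g D N γ where
  mem := fun t ht => A.mem t ⟨ht.1, ht.2.trans h⟩
  V1m := A.V1m.mono_measure (Measure.restrict_mono (Ioc_subset_Ioc_right h) le_rfl)
  pV := fun a b h1 h2 h3 => A.pV a b h1 h2 (h3.trans h)
  eqn := fun t ht => A.eqn t ⟨ht.1, ht.2.trans h⟩
  tri := fun t ht => A.tri t ⟨ht.1, ht.2.trans h⟩
  gle := fun t ht => A.gle t ⟨ht.1, ht.2.trans h⟩
  N0 := A.N0
  Nc := A.Nc.mono (Icc_subset_Icc_right h)
  γc := A.γc.mono (Icc_subset_Icc_right h)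

theorem FH_zero (T : ℝ) : FH T (fun _ => (0 : K)) (fun _ => (0 : K)) where
  memLp := MemLp.zero'
  prim := fun a b _ _ _ => by simp

/-- the equation of the difference -/
theorem diff_eq (Fr : Frame W m C) (hτ : 0 < τ)
    (S : Str W m ν τ (fun _ => (0 : K)) u u1 z z1) {V V1 g : ℝ → H} {D : ℝ → K} {N γ : ℝ → ℝ}
    (A : Appr W m ν τ V V1 g D N γ) :
    ∀ᵐ s ∂(volume.restrict (Ioc 0 τ)),
      ⟪u1 s - V1 s, u s - V s⟫_ℝ + ν * ‖z s - D s‖ ^ 2
        ≤ N s * (‖u s - V s‖ * ‖z s - D s‖) + γ s * ‖u s - V s‖ := by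
  obtain ⟨Z, St1⟩ := toSt (FH_zero τ) S
  filter_upwards [St1.deriv_weak Fr hτ, ae_restrict_mem measurableSet_Ioc] with s h1 hs
  have hsI := Ioc_subset_Icc_self hs
  have hW : (u s - V s, z s - D s) ∈ W := W.sub_mem (S.mem s hsI) (A.mem s hsI)
  have e1 := h1 _ hW
  have e2 := A.eqn s hsI _ hW
  have e3 := Fr.anti _ (S.mem s hsI) _ (A.mem s hsI)
  have e4 := A.tri s hsI _ hW
  simp only at e1 e2 e3 e4
  have e5 : ⟪u1 s - V1 s, u s - V s⟫_ℝ = -(ν * ‖z s - D s‖ ^ 2) - ⟪m (u s - V s), D s⟫_ℝ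
      - ⟪g s, u s - V s⟫_ℝ := by
    rw [inner_sub_left, e1, e2]
    have e6 : ⟪(0 : K) - ν • z s + m (u s), z s - D s⟫_ℝ - (⟪m (V s) - ν • D s, z s - D s⟫_ℝ)
        = ⟪m (u s) - m (V s), z s - D s⟫_ℝ - ν * ⟪z s - D s, z s - D s⟫_ℝ := by
      rw [← inner_sub_left, ← real_inner_smul_left, ← inner_sub_left]
      congr 1
      rw [smul_sub]
      abel
    rw [real_inner_self_eq_norm_sq] at e6
    linarith
  have e7 : -⟪g s, u s - V s⟫_ℝ ≤ γ s * ‖u s - V s‖ := by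
    have k1 := abs_real_inner_le_norm (g s) (u s - V s)
    have k2 := neg_abs_le ⟪g s, u s - V s⟫_ℝ
    have k3 := mul_le_mul_of_nonneg_right (A.gle s hsI) (norm_nonneg (u s - V s))
    linarith
  have e8 := neg_abs_le ⟪m (u s - V s), D s⟫_ℝ
  linarith

/-- the difference in `H` -/
theorem diff_bd (Fr : Frame W m C) (hν : 0 < ν) (hτ : 0 < τ)
    (S : Str W m ν τ (fun _ => (0 : K)) u u1 z z1) {V V1 g : ℝ → H} {D : ℝ → K} {N γ : ℝ → ℝ}
    (A : Appr W m ν τ V V1 g D N γ) (h0 : u 0 = V 0) {L Γ : ℝ}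
    (hL : ∫ s in (0 : ℝ)..τ, N s ^ 2 ≤ ν * L) (hΓ : ∫ s in (0 : ℝ)..τ, γ s ≤ Γ) (hΓ0 : 0 < Γ) :
    ‖u τ - V τ‖ ^ 2 ≤ Real.exp (L + 1) * Γ ^ 2 := by
  have hγ0 : ∀ t ∈ Icc 0 τ, 0 ≤ γ t := fun t ht => (norm_nonneg _).trans (A.gle t ht)
  have huc : ContinuousOn u (Icc 0 τ) := prim_cont S.u1m S.pu
  have hVc : ContinuousOn V (Icc 0 τ) := prim_cont A.V1m A.pV
  have hg1 : MemLp (fun s => u1 s - V1 s) 2 (volume.restrict (Ioc 0 τ)) := S.u1m.sub A.V1m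
  have hgp : ∀ a b, 0 ≤ a → a ≤ b → b ≤ τ → (u b - V b) - (u a - V a)
      = ∫ s in a..b, (u1 s - V1 s) := by
    intro a b ha hab hb
    have i1 : IntervalIntegrable u1 volume a b :=
      ii_of_int (S.u1m.integrable (by norm_num)) ha hab hb
    have i2 : IntervalIntegrable V1 volume a b :=
      ii_of_int (A.V1m.integrable (by norm_num)) ha hab hb
    rw [intervalIntegral.integral_sub i1 i2, ← S.pu a b ha hab hb, ← A.pV a b ha hab hb]
    abel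
  have hwc : ContinuousOn (fun t => ‖u t - V t‖ ^ 2) (Icc 0 τ) := (huc.sub hVc).norm.pow 2
  set β : ℝ → ℝ := fun s => 1 / ν * N s ^ 2 + 1 / Γ * |γ s| with hβ
  have hγc : ContinuousOn (fun s => |γ s|) (Icc 0 τ) := A.γc.abs
  have hβc : ContinuousOn β (Icc 0 τ) :=
    (continuousOn_const.mul (A.Nc.pow 2)).add (continuousOn_const.mul hγc)
  have hβii : IntervalIntegrable β volume 0 τ := by
    refine ContinuousOn.intervalIntegrable ?_
    rwa [uIcc_of_le hτ.le]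
  have hkey := gronL1 (y := fun t => ‖u t - V t‖ ^ 2) (β := β) (k := Γ ^ 2) hτ.le hwc hβii
    (fun s => by positivity) (by
      intro t ht
      have hs : Icc 0 t ⊆ Icc 0 τ := Icc_subset_Icc_right ht.2
      have h1 := sq_prim hg1 hgp le_rfl ht.1 ht.2
      have h2 : ‖u 0 - V 0‖ ^ 2 = 0 := by rw [h0, sub_self]; simp
      have i1 : IntegrableOn (fun s => 2 * ⟪u1 s - V1 s, u s - V s⟫_ℝ) (Ioc 0 t) := by
        have k1 : MemLp (fun s => u1 s - V1 s) 2 (volume.restrict (Ioc 0 t)) :=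
          hg1.mono_measure (Measure.restrict_mono (Ioc_subset_Ioc_right ht.2) le_rfl)
        exact (int_inner k1 (mem_cont ((huc.sub hVc).mono hs))).const_mul 2
      have i2 : IntegrableOn (fun s => β s * ‖u s - V s‖ ^ 2 + |γ s| * Γ) (Ioc 0 t) := by
        have : ContinuousOn (fun s => β s * ‖u s - V s‖ ^ 2 + |γ s| * Γ) (Icc 0 t) :=
          ((hβc.mul hwc).add (hγc.mul continuousOn_const)).mono hs
        exact this.integrableOn_Icc.mono_set Ioc_subset_Icc_self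
      have h3 : ∫ s in (0 : ℝ)..t, 2 * ⟪u1 s - V1 s, u s - V s⟫_ℝ
          ≤ ∫ s in (0 : ℝ)..t, (β s * ‖u s - V s‖ ^ 2 + |γ s| * Γ) := by
        rw [intervalIntegral.integral_of_le ht.1, intervalIntegral.integral_of_le ht.1]
        refine integral_mono_ae i1 i2 ?_
        filter_upwards [ae_mono (Measure.restrict_mono (Ioc_subset_Ioc_right ht.2) le_rfl)
          (diff_eq Fr hτ S A), ae_restrict_mem measurableSet_Ioc] with s k1 k2
        have hγs : 0 ≤ γ s := hγ0 s ⟨k2.1.le, k2.2.trans ht.2⟩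
        have k3 : N s * (‖u s - V s‖ * ‖z s - D s‖)
            ≤ ν * ‖z s - D s‖ ^ 2 + 1 / (4 * ν) * N s ^ 2 * ‖u s - V s‖ ^ 2 := by
          have : 0 ≤ (2 * ν * ‖z s - D s‖ - N s * ‖u s - V s‖) ^ 2 / (4 * ν) := by positivity
          have e : (2 * ν * ‖z s - D s‖ - N s * ‖u s - V s‖) ^ 2 / (4 * ν)
              = ν * ‖z s - D s‖ ^ 2 - N s * (‖u s - V s‖ * ‖z s - D s‖)
                + 1 / (4 * ν) * N s ^ 2 * ‖u s - V s‖ ^ 2 := by
            field_simp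
            ring
          linarith
        have k4 : 2 * (γ s * ‖u s - V s‖) ≤ 1 / Γ * γ s * ‖u s - V s‖ ^ 2 + γ s * Γ := by
          have : 0 ≤ γ s * (‖u s - V s‖ - Γ) ^ 2 / Γ := by positivity
          have e : γ s * (‖u s - V s‖ - Γ) ^ 2 / Γ
              = 1 / Γ * γ s * ‖u s - V s‖ ^ 2 + γ s * Γ - 2 * (γ s * ‖u s - V s‖) := by
            field_simp
            ring
          linarith
        have k5 : 2 * (1 / (4 * ν) * N s ^ 2 * ‖u s - V s‖ ^ 2)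
            ≤ 1 / ν * N s ^ 2 * ‖u s - V s‖ ^ 2 := by
          have e : 1 / ν * N s ^ 2 * ‖u s - V s‖ ^ 2
              = 2 * (1 / (4 * ν) * N s ^ 2 * ‖u s - V s‖ ^ 2)
                + 1 / (2 * ν) * N s ^ 2 * ‖u s - V s‖ ^ 2 := by
            field_simp
            ring
          rw [e]
          have : 0 ≤ 1 / (2 * ν) * N s ^ 2 * ‖u s - V s‖ ^ 2 := by positivity
          linarith
        simp only [hβ]
        rw [abs_of_nonneg hγs]
        have e : (1 / ν * N s ^ 2 + 1 / Γ * γ s) * ‖u s - V s‖ ^ 2 + γ s * Γ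
            = 1 / ν * N s ^ 2 * ‖u s - V s‖ ^ 2 + (1 / Γ * γ s * ‖u s - V s‖ ^ 2 + γ s * Γ) := by
          ring
        rw [e]
        linarith
      have i3 : IntervalIntegrable (fun s => β s * ‖u s - V s‖ ^ 2) volume 0 t := by
        refine ContinuousOn.intervalIntegrable ?_
        rw [uIcc_of_le ht.1]
        exact (hβc.mul hwc).mono hs
      have i4 : IntervalIntegrable (fun s => |γ s| * Γ) volume 0 t := by
        refine ContinuousOn.intervalIntegrable ?_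
        rw [uIcc_of_le ht.1]
        exact (hγc.mul continuousOn_const).mono hs
      rw [intervalIntegral.integral_add i3 i4, intervalIntegral.integral_mul_const] at h3
      have h4 : ∫ s in (0 : ℝ)..t, |γ s| ≤ Γ := by
        have h5 : ∫ s in (0 : ℝ)..t, |γ s| ≤ ∫ s in (0 : ℝ)..τ, |γ s| := by
          refine intervalIntegral.integral_mono_interval le_rfl ht.1 ht.2
            (Eventually.of_forall fun s => abs_nonneg _) ?_
          refine ContinuousOn.intervalIntegrable ?_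
          rwa [uIcc_of_le hτ.le]
        have h6 : ∫ s in (0 : ℝ)..τ, |γ s| = ∫ s in (0 : ℝ)..τ, γ s := by
          refine intervalIntegral.integral_congr fun s hs => ?_
          rw [uIcc_of_le hτ.le] at hs
          exact abs_of_nonneg (hγ0 s hs)
        linarith
      have h7 : (∫ s in (0 : ℝ)..t, |γ s|) * Γ ≤ Γ ^ 2 := by
        calc (∫ s in (0 : ℝ)..t, |γ s|) * Γ ≤ Γ * Γ := by gcongr
          _ = Γ ^ 2 := by ring
      rw [h2, sub_zero] at h1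
      linarith)
  have hβL : ∫ s in (0 : ℝ)..τ, β s ≤ L + 1 := by
    have i5 : IntervalIntegrable (fun s => N s ^ 2) volume 0 τ := by
      refine ContinuousOn.intervalIntegrable ?_
      rw [uIcc_of_le hτ.le]
      exact A.Nc.pow 2
    have i6 : IntervalIntegrable (fun s => |γ s|) volume 0 τ := by
      refine ContinuousOn.intervalIntegrable ?_
      rwa [uIcc_of_le hτ.le]
    have h6 : ∫ s in (0 : ℝ)..τ, |γ s| = ∫ s in (0 : ℝ)..τ, γ s := by
      refine intervalIntegral.integral_congr fun s hs => ?_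
      rw [uIcc_of_le hτ.le] at hs
      exact abs_of_nonneg (hγ0 s hs)
    simp only [hβ]
    rw [intervalIntegral.integral_add (i5.const_mul _) (i6.const_mul _),
      intervalIntegral.integral_const_mul, intervalIntegral.integral_const_mul, h6]
    have h8 : 1 / ν * (∫ s in (0 : ℝ)..τ, N s ^ 2) ≤ L := by
      rw [one_div, inv_mul_le_iff₀ hν]
      exact hL
    have h9 : 1 / Γ * (∫ s in (0 : ℝ)..τ, γ s) ≤ 1 := by
      rw [one_div, inv_mul_le_iff₀ hΓ0, mul_one]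
      exact hΓ
    linarith
  calc ‖u τ - V τ‖ ^ 2 ≤ Γ ^ 2 * Real.exp (∫ s in (0 : ℝ)..τ, β s) := hkey
    _ ≤ Γ ^ 2 * Real.exp (L + 1) := by gcongr
    _ = _ := by ring

/-- the bound of the gradient of the difference -/
theorem diff_grad (Fr : Frame W m C) (hν : 0 < ν) (hτ : 0 < τ)
    (S : Str W m ν τ (fun _ => (0 : K)) u u1 z z1) {V V1 g : ℝ → H} {D : ℝ → K} {N γ : ℝ → ℝ}
    (A : Appr W m ν τ V V1 g D N γ) {K0 Y Y1 Nb γb : ℝ} (hK0 : ∀ t ∈ Icc 0 τ, ‖u t - V t‖ ≤ K0)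
    (hY : ∀ᵐ s ∂(volume.restrict (Ioc 0 τ)), ‖u1 s‖ ≤ Y) (hY1 : ∀ t ∈ Icc 0 τ, ‖V1 t‖ ≤ Y1)
    (hNb : ∀ t ∈ Icc 0 τ, N t ≤ Nb) (hγb : ∀ t ∈ Icc 0 τ, γ t ≤ γb) :
    ∀ᵐ s ∂(volume.restrict (Ioc 0 τ)), ‖z s - D s‖ ^ 2
      ≤ 2 / ν * ((Y + Y1 + γb + Nb ^ 2 / (2 * ν) * K0) * K0) := by
  filter_upwards [diff_eq Fr hτ S A, hY, ae_restrict_mem measurableSet_Ioc] with s h1 h2 hs
  have hsI := Ioc_subset_Icc_self hs
  have hN0 := A.N0 s
  have k1 := hK0 s hsI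
  have k2 := hY1 s hsI
  have k3 := hNb s hsI
  have k4 := hγb s hsI
  have hγ0 : 0 ≤ γ s := (norm_nonneg _).trans (A.gle s hsI)
  have hn := norm_nonneg (u s - V s)
  have hK0' : 0 ≤ K0 := hn.trans k1
  have k5 : -⟪u1 s - V1 s, u s - V s⟫_ℝ ≤ (Y + Y1) * K0 := by
    have a1 := abs_real_inner_le_norm (u1 s - V1 s) (u s - V s)
    have a2 := neg_abs_le ⟪u1 s - V1 s, u s - V s⟫_ℝ
    have a3 : ‖u1 s - V1 s‖ ≤ Y + Y1 := (norm_sub_le _ _).trans (add_le_add h2 k2)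
    have a4 : ‖u1 s - V1 s‖ * ‖u s - V s‖ ≤ (Y + Y1) * K0 :=
      mul_le_mul a3 k1 hn ((norm_nonneg _).trans a3)
    linarith
  have k6 : γ s * ‖u s - V s‖ ≤ γb * K0 := mul_le_mul k4 k1 hn (hγ0.trans k4)
  have k7 : N s * (‖u s - V s‖ * ‖z s - D s‖)
      ≤ ν / 2 * ‖z s - D s‖ ^ 2 + Nb ^ 2 / (2 * ν) * K0 * K0 := by
    have hNb0 : 0 ≤ Nb := hN0.trans k3
    have a1 : N s * (‖u s - V s‖ * ‖z s - D s‖) ≤ Nb * (K0 * ‖z s - D s‖) := by gcongr
    have a2 : 0 ≤ (ν * ‖z s - D s‖ - Nb * K0) ^ 2 / (2 * ν) := by positivity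
    have e : (ν * ‖z s - D s‖ - Nb * K0) ^ 2 / (2 * ν)
        = ν / 2 * ‖z s - D s‖ ^ 2 - Nb * (K0 * ‖z s - D s‖) + Nb ^ 2 / (2 * ν) * K0 * K0 := by
      field_simp
      ring
    linarith
  have k8 : ν / 2 * ‖z s - D s‖ ^ 2 ≤ (Y + Y1 + γb + Nb ^ 2 / (2 * ν) * K0) * K0 := by
    have e : (Y + Y1 + γb + Nb ^ 2 / (2 * ν) * K0) * K0
        = (Y + Y1) * K0 + γb * K0 + Nb ^ 2 / (2 * ν) * K0 * K0 := by ring
    rw [e]
    linarith
  calc ‖z s - D s‖ ^ 2 = 2 / ν * (ν / 2 * ‖z s - D s‖ ^ 2) := by field_simp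
    _ ≤ _ := by gcongr

/-- **Strong solutions near an approximate solution.** -/
theorem pert (hloc : S_loc) (Fr : Frame W m C) (hm : Hom W m) (Un : Univ W m c)
    (hcomp : ∀ R : ℝ, TotallyBounded {v : H | ∃ z, (v, z) ∈ W ∧ ‖z‖ ≤ R})
    (hν : 0 < ν) (hT : 0 < T) {V V1 g : ℝ → H} {D : ℝ → K} {N γ : ℝ → ℝ}
    (A : Appr W m ν T V V1 g D N γ) {L Γ K0 Y Y1 Nb γb : ℝ}
    (hL : ∫ s in (0 : ℝ)..T, N s ^ 2 ≤ ν * L) (hΓ : ∫ s in (0 : ℝ)..T, γ s ≤ Γ) (hΓ0 : 0 < Γ)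
    (hK0 : Real.exp (L + 1) * Γ ^ 2 ≤ K0 ^ 2) (hK00 : 0 ≤ K0)
    (hY1 : ∀ t ∈ Icc 0 T, ‖V1 t‖ ≤ Y1) (hNb : ∀ t ∈ Icc 0 T, N t ≤ Nb)
    (hγb : ∀ t ∈ Icc 0 T, γ t ≤ γb) (hY : 4 * (Y1 + γb) * Real.exp L < Y)
    (hcond : 32 * c ^ 4 * K0 ^ 3 * (Y + Y1 + γb + Nb ^ 2 / (2 * ν) * K0) ≤ ν ^ 5) :
    ∃ (u u1 : ℝ → H) (z z1 : ℝ → K), Str W m ν T (fun _ => (0 : K)) u u1 z z1 ∧ u 0 = V 0 := by
  have hc := Un.c0
  have h0T : (0 : ℝ) ∈ Icc 0 T := ⟨le_rfl, hT.le⟩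
  have hL0 : 0 ≤ L := by
    have h1 : 0 ≤ ∫ s in (0 : ℝ)..T, N s ^ 2 :=
      intervalIntegral.integral_nonneg hT.le fun s _ => by positivity
    have h2 : 0 ≤ ν * L := h1.trans hL
    exact (mul_nonneg_iff_of_pos_left hν).1 h2
  have hY10 : 0 ≤ Y1 := (norm_nonneg _).trans (hY1 0 h0T)
  have hγb0 : 0 ≤ γb := ((norm_nonneg _).trans (A.gle 0 h0T)).trans (hγb 0 h0T)
  have hNb0 : 0 ≤ Nb := (A.N0 0).trans (hNb 0 h0T)
  have hY0 : 0 ≤ Y := by
    have : 0 ≤ 4 * (Y1 + γb) * Real.exp L := by positivity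
    linarith
  set E : ℝ := ‖V 0‖ with hE
  set b : ℝ := 2 * E * Y / ν with hb
  have hb0 : 0 ≤ b := by positivity
  set N1 : ℝ := ‖D 0‖ + (b + 1) with hN1
  obtain ⟨τ, u, u1, z, z1, hτ, hτT, S, hu0, hend⟩ :=
    hloc H K W m C ν T (fun _ => (0 : K)) (fun _ => (0 : K)) (V 0) (V1 0 - g 0) (D 0) N1 Fr hcomp
      hν hT (FH_zero T) (A.mem 0 h0T) (by
        intro p hp
        have := A.eqn 0 h0T p hp
        rw [inner_sub_left, this]
        have e : (0 : K) - ν • D 0 + m (V 0) = m (V 0) - ν • D 0 := by abel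
        rw [e]
        ring) (by rw [hN1]; linarith)
  have hz0 : z 0 = D 0 := by
    have h1 : (u 0, z 0) ∈ W := S.mem 0 ⟨le_rfl, hτ.le⟩
    rw [hu0] at h1
    have h2 : (V 0, z 0) - (V 0, D 0) ∈ W := W.sub_mem h1 (A.mem 0 h0T)
    have h3 := Fr.uniq _ h2 (by simp)
    simpa [sub_eq_zero] using h3
  -- the energy
  have huE : ∀ t ∈ Icc 0 τ, ‖u t‖ ≤ E := by
    intro t ht
    have h1 := energy_bd hν continuousOn_const S (E := E) (by
      intro t _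
      rw [hu0]
      simp [hE]) t ht
    have h2 : 0 ≤ ν * ∫ s in (0 : ℝ)..t, ‖z s‖ ^ 2 :=
      mul_nonneg hν.le (intervalIntegral.integral_nonneg ht.1 fun s _ => by positivity)
    have h3 : ‖u t‖ ^ 2 ≤ E ^ 2 := by linarith
    exact (pow_le_pow_iff_left₀ (norm_nonneg _) (norm_nonneg _) (by norm_num)).mp h3
  have hNint : ∀ t ∈ Icc 0 T, ∫ s in (0 : ℝ)..t, N s ^ 2 ≤ ν * L := by
    intro t ht
    refine le_trans ?_ hL
    refine intervalIntegral.integral_mono_interval le_rfl ht.1 ht.2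
      (Eventually.of_forall fun s => sq_nonneg _) ?_
    refine ContinuousOn.intervalIntegrable ?_
    rw [uIcc_of_le hT.le]
    exact A.Nc.pow 2
  have hγint : ∀ t ∈ Icc 0 T, ∫ s in (0 : ℝ)..t, γ s ≤ Γ := by
    intro t ht
    refine le_trans ?_ hΓ
    have i1 : IntervalIntegrable γ volume 0 T := by
      refine ContinuousOn.intervalIntegrable ?_
      rw [uIcc_of_le hT.le]
      exact A.γc
    have i2 : IntervalIntegrable γ volume 0 t := by
      refine ContinuousOn.intervalIntegrable ?_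
      rw [uIcc_of_le ht.1]
      exact A.γc.mono (Icc_subset_Icc_right ht.2)
    have i3 : IntervalIntegrable γ volume t T := by
      refine ContinuousOn.intervalIntegrable ?_
      rw [uIcc_of_le ht.2]
      exact A.γc.mono (Icc_subset_Icc_left ht.1)
    have h1 := intervalIntegral.integral_add_adjacent_intervals i2 i3
    have h2 : 0 ≤ ∫ s in t..T, γ s := intervalIntegral.integral_nonneg ht.2 fun s hs =>
      (norm_nonneg _).trans (A.gle s ⟨ht.1.trans hs.1, hs.2⟩)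
    linarith
  have hwK : ∀ t ∈ Icc 0 τ, ‖u t - V t‖ ≤ K0 := by
    intro t ht
    rcases eq_or_lt_of_le ht.1 with h | h
    · rw [← h, hu0, sub_self, norm_zero]
      exact hK00
    · have htT : t ≤ T := ht.2.trans hτT
      have h1 := diff_bd Fr hν h (S.mono ht.2) (A.mono htT) hu0 (hNint t ⟨h.le, htT⟩)
        (hγint t ⟨h.le, htT⟩) hΓ0
      exact (pow_le_pow_iff_left₀ (norm_nonneg _) hK00 (by norm_num)).mp (h1.trans hK0)
  have hYb : (16 * ‖V1 0 - g 0‖ ^ 2 + (∫ s in (0 : ℝ)..T, ‖(0 : K)‖ ^ 2) / (2 * (1 / 4) * ν))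
      * Real.exp (2 * L) < Y ^ 2 := by
    have h1 : ‖V1 0 - g 0‖ ≤ Y1 + γb :=
      (norm_sub_le _ _).trans (add_le_add (hY1 0 h0T) ((A.gle 0 h0T).trans (hγb 0 h0T)))
    have h2 : (4 * ‖V1 0 - g 0‖ * Real.exp L) ^ 2 < Y ^ 2 := by
      refine pow_lt_pow_left₀ (lt_of_le_of_lt ?_ hY) (by positivity) (by norm_num)
      gcongr
    calc _ = (4 * ‖V1 0 - g 0‖ * Real.exp L) ^ 2 := by
          have e3 : Real.exp (2 * L) = Real.exp L ^ 2 := by
            rw [← Real.exp_nat_mul]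
            norm_num
          rw [e3]
          simp
          ring
      _ < Y ^ 2 := h2
  have hbd := boot Fr hm hν hτ hτT (FH_zero T) (fun t ht => S.mono ht.2.le) (g0 := V1 0 - g 0) (by
    intro p hp
    have := A.eqn 0 h0T p hp
    rw [hz0, hu0, inner_sub_left, this]
    have e : (0 : K) - ν • D 0 + m (V 0) = m (V 0) - ν • D 0 := by abel
    rw [e]
    ring) (δ := 1 / 4) (L := L) (Y := Y) (by norm_num) hL0 hY0 hYb (by
    intro t ht hYt
    have St := S.mono ht.2.le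
    have htT : t ≤ T := ht.2.le.trans hτT
    have At := A.mono htT
    have hD := diff_grad Fr hν ht.1 St At (K0 := K0) (Y := Y) (Y1 := Y1) (Nb := Nb) (γb := γb)
      (fun s hs => hwK s ⟨hs.1, hs.2.trans ht.2.le⟩) hYt
      (fun s hs => hY1 s ⟨hs.1, hs.2.trans htT⟩) (fun s hs => hNb s ⟨hs.1, hs.2.trans htT⟩)
      (fun s hs => hγb s ⟨hs.1, hs.2.trans htT⟩)
    have hNc : ContinuousOn (fun s => 1 / ν * N s ^ 2) (Icc 0 t) :=
      continuousOn_const.mul (At.Nc.pow 2)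
    refine ⟨fun s => 1 / ν * N s ^ 2, fun s => by positivity,
      hNc.integrableOn_Icc.mono_set Ioc_subset_Icc_self, ?_, ?_⟩
    · rw [intervalIntegral.integral_const_mul, one_div, inv_mul_le_iff₀ hν]
      exact hNint t ⟨ht.1.le, htT⟩
    · filter_upwards [hD, St.mem1, ae_restrict_mem measurableSet_Ioc] with s h1 h2 hs
      have hsI : s ∈ Icc 0 τ := ⟨hs.1.le, hs.2.trans ht.2.le⟩
      have hsT : s ∈ Icc 0 T := ⟨hs.1.le, hs.2.trans htT⟩
      have hW : (u s - V s, z s - D s) ∈ W := W.sub_mem (S.mem s hsI) (A.mem s hsT)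
      have k1 := Un.tri _ h2 _ hW
      have k2 := A.tri s hsT _ h2
      simp only at k1 k2
      have e1 : -⟪m (u1 s), z s⟫_ℝ = -⟪m (u1 s), D s⟫_ℝ - ⟪m (u1 s), z s - D s⟫_ℝ := by
        rw [inner_sub_right]
        ring
      have k3 : √‖u s - V s‖ * √‖z s - D s‖ ≤ ν / (2 * c) := by
        have a1 : (√‖u s - V s‖ * √‖z s - D s‖) ^ 4 ≤ (ν / (2 * c)) ^ 4 := by
          have a2 : (√‖u s - V s‖ * √‖z s - D s‖) ^ 4 = ‖u s - V s‖ ^ 2 * ‖z s - D s‖ ^ 2 := by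
            have b1 := Real.sq_sqrt (norm_nonneg (u s - V s))
            have b2 := Real.sq_sqrt (norm_nonneg (z s - D s))
            calc (√‖u s - V s‖ * √‖z s - D s‖) ^ 4
                = ((√‖u s - V s‖) ^ 2) ^ 2 * ((√‖z s - D s‖) ^ 2) ^ 2 := by ring
              _ = _ := by rw [b1, b2]
          have a3 := hwK s hsI
          rw [a2]
          calc ‖u s - V s‖ ^ 2 * ‖z s - D s‖ ^ 2
              ≤ K0 ^ 2 * (2 / ν * ((Y + Y1 + γb + Nb ^ 2 / (2 * ν) * K0) * K0)) := by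
                gcongr
            _ = (32 * c ^ 4 * K0 ^ 3 * (Y + Y1 + γb + Nb ^ 2 / (2 * ν) * K0))
                  / (16 * c ^ 4 * ν) := by
                field_simp
                ring
            _ ≤ ν ^ 5 / (16 * c ^ 4 * ν) := by gcongr
            _ = (ν / (2 * c)) ^ 4 := by
                field_simp
                ring
        exact (pow_le_pow_iff_left₀ (by positivity) (by positivity) (by norm_num)).mp a1
      have k4 : c * (‖z1 s‖ ^ 2 * (√‖u s - V s‖ * √‖z s - D s‖)) ≤ ν / 2 * ‖z1 s‖ ^ 2 := by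
        calc c * (‖z1 s‖ ^ 2 * (√‖u s - V s‖ * √‖z s - D s‖))
            ≤ c * (‖z1 s‖ ^ 2 * (ν / (2 * c))) := by gcongr
          _ = ν / 2 * ‖z1 s‖ ^ 2 := by field_simp
      have k5 : N s * (‖u1 s‖ * ‖z1 s‖) ≤ ν / 4 * ‖z1 s‖ ^ 2 + 1 / ν * N s ^ 2 * ‖u1 s‖ ^ 2 := by
        have a2 : 0 ≤ (ν / 2 * ‖z1 s‖ - N s * ‖u1 s‖) ^ 2 / ν := by positivity
        have e : (ν / 2 * ‖z1 s‖ - N s * ‖u1 s‖) ^ 2 / ν
            = ν / 4 * ‖z1 s‖ ^ 2 - N s * (‖u1 s‖ * ‖z1 s‖) + 1 / ν * N s ^ 2 * ‖u1 s‖ ^ 2 := by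
          field_simp
          ring
        linarith
      have k6 := neg_abs_le ⟪m (u1 s), D s⟫_ℝ
      have k7 := neg_abs_le ⟪m (u1 s), z s - D s⟫_ℝ
      rw [e1]
      have e2 : (1 - 1 / 4) * ν * ‖z1 s‖ ^ 2 = ν / 2 * ‖z1 s‖ ^ 2 + ν / 4 * ‖z1 s‖ ^ 2 := by ring
      rw [e2]
      linarith)
  -- the bound of the gradient up to `τ`
  have hbd' : ∀ᵐ t ∂(volume.restrict (Ioc 0 τ)), ‖u1 t‖ ≤ Y := by
    have hne : ∀ᵐ s ∂(volume.restrict (Ioc 0 τ)), s ≠ τ := by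
      refine ae_restrict_of_ae ?_
      simp [ae_iff, measure_singleton]
    rw [ae_restrict_iff' measurableSet_Ioo] at hbd
    rw [ae_restrict_iff' measurableSet_Ioc] at hne ⊢
    filter_upwards [hbd, hne] with t h1 h2 h3
    exact h1 ⟨h3.1, lt_of_le_of_ne h3.2 (h2 h3)⟩
  have hzb := grad_bd Fr hν hτ (FH_zero τ) S (norm_nonneg _) huE (Φ := 0)
    (fun s _ => by simp) hbd' τ ⟨hτ.le, le_rfl⟩
  rcases hend with h1 | h1
  · rw [h1] at S
    exact ⟨u, u1, z, z1, S, hu0⟩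
  · exfalso
    have h2 : b + 1 ≤ ‖z τ‖ := by
      have := norm_nonneg (D 0)
      linarith
    have h3 : (b + 1) ^ 2 ≤ ‖z τ‖ ^ 2 := pow_le_pow_left₀ (by positivity) h2 2
    have h4 : ‖z τ‖ ^ 2 ≤ b := by
      refine hzb.trans (le_of_eq ?_)
      rw [hb, hE]
      ring
    nlinarith

end Pool.Agent.Y303.LV
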