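import Pool.Agent.Y303.LV.Bnd
import Pool.Agent.Y303.LV.Pert
import Pool.Agent.Y303.RA.Conc

/-!
The Gaussian vortex as an approximate solution.
-/

set_option autoImplicit false
set_option linter.unusedSectionVars false

open MeasureTheory Set Filter Topology
open scoped InnerProductSpace ENNReal ContDiff NNReal

namespace Pool.Agent.Y303.LV

open H772R2.NS
open H772R2.NSR (Frame compat_ext)
open H772R2.NSG (mem_cont)
open Pool.Agent.W52.TQ (ibp tns norm_tns graphW_le)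
open Pool.Agent.W795.TQ
open Pool.Agent.Y303.RA

variable {Ω : Set E3} {b : E3} {ρ B ν a κ Bt : ℝ} {h h1 h2 θ θ1 : ℝ → ℝ}

theorem sg_sqrt_deriv {t : ℝ} (hs : 0 < sg a ν t) :
    HasDerivAt (fun t => √(sg a ν t)) (2 * ν / √(sg a ν t)) t := by
  have hsd : HasDerivAt (sg a ν) (4 * ν) t := by
    have h0 := ((hasDerivAt_id t).const_mul (4 * ν)).const_add (a ^ 2)
    rw [mul_one] at h0
    exact h0
  refine (hsd.sqrt hs.ne').congr_deriv ?_
  field_simp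
  ring

theorem sg_cont : Continuous (sg a ν) := by unfold sg; fun_prop

theorem pow_sg_cont (ha : 0 < a) (hν : 0 < ν) {T : ℝ} (n : ℕ) :
    ContinuousOn (fun t => 1 / √(sg a ν t) ^ n) (Icc 0 T) := by
  refine continuousOn_const.div ((Real.continuous_sqrt.comp sg_cont).pow n).continuousOn ?_
  intro t ht
  exact pow_ne_zero _ (Real.sqrt_pos.2 (sg_pos ha hν ht.1)).ne'

theorem int_sg3 (ha : 0 < a) (hν : 0 < ν) {T : ℝ} (hT : 0 ≤ T) :
    ∫ t in (0 : ℝ)..T, 1 / √(sg a ν t) ^ 3 ≤ 1 / (2 * ν * a) := by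
  have hd : ∀ t ∈ uIcc 0 T, HasDerivAt (fun t => -(1 / (2 * ν)) * (√(sg a ν t))⁻¹)
      (1 / √(sg a ν t) ^ 3) t := by
    intro t ht
    rw [uIcc_of_le hT] at ht
    have hs := sg_pos (a := a) ha hν ht.1
    have hs' := Real.sqrt_pos.2 hs
    refine (((sg_sqrt_deriv hs).inv hs'.ne').const_mul (-(1 / (2 * ν)))).congr_deriv ?_
    field_simp
  have hc : IntervalIntegrable (fun t => 1 / √(sg a ν t) ^ 3) volume 0 T := by
    refine ContinuousOn.intervalIntegrable ?_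
    rw [uIcc_of_le hT]
    exact pow_sg_cont ha hν 3
  rw [intervalIntegral.integral_eq_sub_of_hasDerivAt hd hc]
  have h0 : √(sg a ν 0) = a := by
    unfold sg
    rw [mul_zero, add_zero, Real.sqrt_sq ha.le]
  have h1 : 0 < √(sg a ν T) := Real.sqrt_pos.2 (sg_pos ha hν hT)
  rw [h0]
  have : 0 ≤ 1 / (2 * ν) * (√(sg a ν T))⁻¹ := by positivity
  have e : 1 / (2 * ν * a) = 1 / (2 * ν) * a⁻¹ := by field_simp
  rw [e]
  linarith

theorem int_sg6 (ha : 0 < a) (hν : 0 < ν) {T : ℝ} (hT : 0 ≤ T) :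
    ∫ t in (0 : ℝ)..T, 1 / √(sg a ν t) ^ 6 ≤ 1 / (8 * ν * a ^ 4) := by
  have hd : ∀ t ∈ uIcc 0 T, HasDerivAt (fun t => -(1 / (8 * ν)) * ((√(sg a ν t)) ^ 4)⁻¹)
      (1 / √(sg a ν t) ^ 6) t := by
    intro t ht
    rw [uIcc_of_le hT] at ht
    have hs := sg_pos (a := a) ha hν ht.1
    have hs' := Real.sqrt_pos.2 hs
    refine ((((sg_sqrt_deriv hs).pow 4).inv (pow_ne_zero 4 hs'.ne')).const_mul
      (-(1 / (8 * ν)))).congr_deriv ?_
    simp only [Pi.pow_apply]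
    field_simp
    ring
  have hc : IntervalIntegrable (fun t => 1 / √(sg a ν t) ^ 6) volume 0 T := by
    refine ContinuousOn.intervalIntegrable ?_
    rw [uIcc_of_le hT]
    exact pow_sg_cont ha hν 6
  rw [intervalIntegral.integral_eq_sub_of_hasDerivAt hd hc]
  have h0 : √(sg a ν 0) = a := by
    unfold sg
    rw [mul_zero, add_zero, Real.sqrt_sq ha.le]
  have h1 : 0 < √(sg a ν T) := Real.sqrt_pos.2 (sg_pos ha hν hT)
  rw [h0]
  have : 0 ≤ 1 / (8 * ν) * (√(sg a ν T) ^ 4)⁻¹ := by positivity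
  have e : 1 / (8 * ν * a ^ 4) = 1 / (8 * ν) * (a ^ 4)⁻¹ := by field_simp
  rw [e]
  linarith

/-- the class of the Jacobian matrix -/
noncomputable def clj (Ω : Set E3) (φ : E3 → E3) : L2M Ω :=
  open Classical in if h : MemLp (jac φ) 2 (volume.restrict Ω) then h.toLp (jac φ) else 0

theorem clj_coe {φ : E3 → E3} (hφ : IsTest Ω φ) :
    (clj Ω φ : E3 → M3) =ᵐ[volume.restrict Ω] jac φ := by
  have h1 : MemLp (jac φ) 2 (volume.restrict Ω) := (hφ.jac_memLp 2).restrict _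
  unfold clj
  rw [dif_pos h1]
  exact MemLp.coeFn_toLp _

theorem vort_mem (hρ : 0 < ρ) (hB : Metric.ball b ρ ⊆ Ω) (hC : Cut ρ h h1 h2 B) (t : ℝ) :
    (cl Ω (Vf b h κ a ν θ t), clj Ω (Vf b h κ a ν θ t)) ∈ graphW Ω :=
  Submodule.le_topologicalClosure _ ⟨Vf b h κ a ν θ t, Vf_test hρ hB hC t,
    cl_coe (adm_Vf hC t) hρ, clj_coe (Vf_test hρ hB hC t)⟩

theorem integral_restrict_of_off (hm : MeasurableSet Ω) {f : E3 → ℝ} (hf : ∀ x, x ∉ Ω → f x = 0) :
    ∫ x in Ω, f x = ∫ x, f x := by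
  rw [← integral_indicator hm]
  refine integral_congr_ae (Eventually.of_forall fun x => ?_)
  by_cases h : x ∈ Ω
  · simp only [indicator_of_mem h]
  · simp only [indicator_of_notMem h, hf x h]

theorem test_off {φ : E3 → E3} (hφ : IsTest Ω φ) {x : E3} (hx : x ∉ Ω) : φ x = 0 :=
  image_eq_zero_of_notMem_tsupport fun hc => hx (hφ.supp hc)

theorem jac_off {φ : E3 → E3} (hφ : IsTest Ω φ) {x : E3} (hx : x ∉ Ω) : jac φ x = 0 :=
  image_eq_zero_of_notMem_tsupport fun hc => hx (hφ.supp (tsupport_jac_subset hc))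

/-- the equation of the vortex -/
theorem vort_weak (hm : MeasurableSet Ω) (hρ : 0 < ρ) (hB : Metric.ball b ρ ⊆ Ω)
    (hC : Cut ρ h h1 h2 B) {t : ℝ} (hs : 0 < sg a ν t) {p : L2V Ω × L2M Ω} (hp : p ∈ graphW Ω) :
    ⟪cl Ω (V1f b h κ a ν θ θ1 t), p.1⟫_ℝ
      = ⟪tensL (cl Ω (Vf b h κ a ν θ t)) - ν • clj Ω (Vf b h κ a ν θ t), p.2⟫_ℝ
        + ⟪cl Ω (gf b h h1 h2 κ a ν θ θ1 t), p.1⟫_ℝ := by
  have hV := Vf_test (κ := κ) (a := a) (ν := ν) (θ := θ) hρ hB hC t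
  have key : ∀ p ∈ graphW Ω,
      ⟪tensL (cl Ω (Vf b h κ a ν θ t)) - ν • clj Ω (Vf b h κ a ν θ t), p.2⟫_ℝ
        = ⟪cl Ω (V1f b h κ a ν θ θ1 t) - cl Ω (gf b h h1 h2 κ a ν θ θ1 t), p.1⟫_ℝ := by
    refine compat_ext ?_
    rintro p ⟨ψ, k1, k2, k3⟩
    have a1 := adm_V1f (b := b) (κ := κ) (a := a) (ν := ν) (θ := θ) (θ1 := θ1) hC t
    have a2 := adm_gf (b := b) (κ := κ) (a := a) (ν := ν) (θ := θ) (θ1 := θ1) hC t
    rw [← cl_sub a1 a2 hρ, cl_inner (a1.sub a2) hρ hm hB k2,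
      vort_eqn (θ1 := θ1) hρ hB hC hs k1, inner_sub_left, real_inner_smul_left]
    have e1 : ⟪tensL (cl Ω (Vf b h κ a ν θ t)), p.2⟫_ℝ
        = ∫ x, ⟪tens (Vf b h κ a ν θ t x), jac ψ x⟫_ℝ := by
      rw [L2.inner_def, ← integral_restrict_of_off hm (fun x hx => by rw [jac_off k1 hx,
        inner_zero_right])]
      refine integral_congr_ae ?_
      filter_upwards [tensL_coe hm (vort_mem (κ := κ) (a := a) (ν := ν) (θ := θ) hρ hB hC t), k3,
        cl_coe (Ω := Ω) (adm_Vf (b := b) (κ := κ) (a := a) (ν := ν) (θ := θ) hC t) hρ]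
        with x c1 c2 c3
      rw [c1, c2, c3]
    have e2 : ⟪clj Ω (Vf b h κ a ν θ t), p.2⟫_ℝ
        = ∫ x, ⟪jac (Vf b h κ a ν θ t) x, jac ψ x⟫_ℝ := by
      rw [L2.inner_def, ← integral_restrict_of_off hm (fun x hx => by rw [jac_off k1 hx,
        inner_zero_right])]
      refine integral_congr_ae ?_
      filter_upwards [clj_coe hV, k3] with x c1 c2
      rw [c1, c2]
    rw [e1, e2]
  have h3 := key p hp
  rw [inner_sub_left (𝕜 := ℝ) (cl Ω (V1f b h κ a ν θ θ1 t))] at h3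
  linarith

/-- the bound of the quadratic term -/
theorem vort_tri (hm : MeasurableSet Ω) (hρ : 0 < ρ) (hB : Metric.ball b ρ ⊆ Ω)
    (hC : Cut ρ h h1 h2 B) {t N : ℝ} (hN0 : 0 ≤ N) (hN : ∀ x, ‖Vf b h κ a ν θ t x‖ ≤ N)
    {p : L2V Ω × L2M Ω} (hp : p ∈ graphW Ω) :
    |⟪tensL p.1, clj Ω (Vf b h κ a ν θ t)⟫_ℝ| ≤ N * (‖p.1‖ * ‖p.2‖) := by
  have hV := Vf_test (κ := κ) (a := a) (ν := ν) (θ := θ) hρ hB hC t
  refine graphW_le (fun p : L2V Ω × L2M Ω => |⟪tensL p.1, clj Ω (Vf b h κ a ν θ t)⟫_ℝ|)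
    (fun p : L2V Ω × L2M Ω => N * (‖p.1‖ * ‖p.2‖)) ?_ ?_ ?_ hp
  · exact ((tensL_continuousOn hm).inner continuousOn_const).abs
  · exact Continuous.continuousOn (by fun_prop)
  · rintro q ⟨φ, k1, k2, k3⟩
    have hq : q ∈ graphW Ω := Submodule.le_topologicalClosure _ ⟨φ, k1, k2, k3⟩
    set V := Vf b h κ a ν θ t with hVdef
    have e1 : ⟪tensL q.1, clj Ω V⟫_ℝ = ∫ x, ⟪tens (φ x), jac V x⟫_ℝ := by
      rw [L2.inner_def, ← integral_restrict_of_off hm (fun x hx => by rw [jac_off hV hx,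
        inner_zero_right])]
      refine integral_congr_ae ?_
      filter_upwards [tensL_coe hm hq, clj_coe hV, k2] with x c1 c2 c3
      rw [c1, c2, c3]
    have hcφ : Continuous φ := k1.smooth.continuous
    have hcV : Continuous V := hV.smooth.continuous
    have hct : Continuous (fun x => tns (V x) (φ x)) := by
      unfold tns
      refine (PiLp.continuous_toLp 2 _).comp (continuous_pi fun p => ?_)
      fun_prop
    have hmt : MemLp (fun x => tns (V x) (φ x)) 2 (volume.restrict Ω) := by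
      refine (hct.memLp_of_hasCompactSupport ?_).restrict _
      refine k1.compact.mono fun x hx h0 => hx ?_
      ext p
      simp [tns, h0]
    have e2 : ∫ x, ⟪jac φ x, tns (V x) (φ x)⟫_ℝ = ⟪q.2, hmt.toLp _⟫_ℝ := by
      rw [L2.inner_def, ← integral_restrict_of_off hm (fun x hx => by rw [jac_off k1 hx,
        inner_zero_left])]
      refine integral_congr_ae ?_
      filter_upwards [k3, hmt.coeFn_toLp] with x c1 c2
      rw [c1, c2]
    have e3 : ‖hmt.toLp _‖ ≤ N * ‖q.1‖ := by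
      refine Lp.norm_le_mul_norm_of_ae_le_mul ?_
      filter_upwards [k2, hmt.coeFn_toLp] with x c1 c2
      rw [c1, c2, norm_tns]
      exact mul_le_mul_of_nonneg_right (hN x) (norm_nonneg _)
    rw [e1, ibp k1 hV, e2, abs_neg]
    refine (abs_real_inner_le_norm _ _).trans ?_
    calc ‖q.2‖ * ‖hmt.toLp _‖ ≤ ‖q.2‖ * (N * ‖q.1‖) := by gcongr
      _ = N * (‖q.1‖ * ‖q.2‖) := by ring

/-- joint continuity -/
theorem V1f_cont (hC : Cut ρ h h1 h2 B) (hT : TCut ν θ θ1 Bt) :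
    ContinuousOn (fun z : ℝ × E3 => V1f b h κ a ν θ θ1 z.1 z.2) {z | 0 < sg a ν z.1} := by
  have hθc : Continuous θ := continuous_iff_continuousAt.2 fun t => (hT.d1 t).continuousAt
  have c0 : Continuous (fun z : ℝ × E3 => sg a ν z.1) := sg_cont.comp continuous_fst
  have c1 : Continuous (fun z : ℝ × E3 => θ z.1) := hθc.comp continuous_fst
  have c2 : Continuous (fun z : ℝ × E3 => θ1 z.1) := hT.c1.comp continuous_fst
  have c3 : Continuous (fun z : ℝ × E3 => q2 b z.2) := (cd_q2 b).continuous.comp continuous_snd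
  have c4 : Continuous (fun z : ℝ × E3 => h (R2 b z.2)) :=
    hC.smooth.continuous.comp ((cd_R2 b).continuous.comp continuous_snd)
  have c5 : Continuous (fun z : ℝ × E3 => Jv b z.2) := (continuous_Jv b).comp continuous_snd
  have hne : ∀ z : ℝ × E3, z ∈ {z : ℝ × E3 | 0 < sg a ν z.1} → sg a ν z.1 ≠ 0 := fun z hz => hz.ne'
  have hne2 : ∀ z : ℝ × E3, z ∈ {z : ℝ × E3 | 0 < sg a ν z.1} → sg a ν z.1 ^ 2 ≠ 0 :=
    fun z hz => pow_ne_zero _ hz.ne'
  have hne3 : ∀ z : ℝ × E3, z ∈ {z : ℝ × E3 | 0 < sg a ν z.1} → sg a ν z.1 ^ 3 ≠ 0 :=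
    fun z hz => pow_ne_zero _ hz.ne'
  have d1 : ContinuousOn (fun z : ℝ × E3 => Am1 κ a ν θ θ1 z.1) {z | 0 < sg a ν z.1} := by
    unfold Am1
    exact ((continuous_const.mul c2).continuousOn.div (c0.pow 2).continuousOn hne2).sub
      ((continuous_const.mul c1).continuousOn.div (c0.pow 3).continuousOn hne3)
  have d2 : ContinuousOn (fun z : ℝ × E3 => Am κ a ν θ z.1) {z | 0 < sg a ν z.1} := by
    unfold Am
    exact (continuous_const.mul c1).continuousOn.div (c0.pow 2).continuousOn hne2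
  have d3 : ContinuousOn (fun z : ℝ × E3 => 4 * ν * q2 b z.2 / sg a ν z.1 ^ 2)
      {z | 0 < sg a ν z.1} :=
    (continuous_const.mul c3).continuousOn.div (c0.pow 2).continuousOn hne2
  have d4 : ContinuousOn (fun z : ℝ × E3 => Gf b (sg a ν z.1) h z.2) {z | 0 < sg a ν z.1} := by
    unfold Gf
    refine c4.continuousOn.mul (Real.continuous_exp.comp_continuousOn ?_)
    exact ((continuousOn_const.div c0.continuousOn hne).neg).mul c3.continuousOn
  have e : (fun z : ℝ × E3 => V1f b h κ a ν θ θ1 z.1 z.2) = fun z =>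
      (Am1 κ a ν θ θ1 z.1 + Am κ a ν θ z.1 * (4 * ν * q2 b z.2 / sg a ν z.1 ^ 2))
        • (Gf b (sg a ν z.1) h z.2 • Jv b z.2) := by
    funext z
    rw [V1f, vf_eq]
  rw [e]
  exact (d1.add (d2.mul d3)).smul (d4.smul c5.continuousOn)

/-- local bounds -/
theorem V1f_loc (hρ : 0 < ρ) (ha : 0 < a) (hν : 0 < ν) (hC : Cut ρ h h1 h2 B)
    (hT : TCut ν θ θ1 Bt) {t : ℝ} (ht : 0 ≤ t) : ∃ δ C : ℝ, 0 < δ ∧
    (∀ r ∈ Metric.ball t δ, 0 < sg a ν r) ∧
    ∀ r ∈ Metric.ball t δ, ∀ x, ‖V1f b h κ a ν θ θ1 r x‖ ≤ C := by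
  set δ : ℝ := a ^ 2 / (8 * ν) with hδ
  have hδ0 : 0 < δ := by positivity
  have hpos : ∀ r ∈ Metric.closedBall t δ, 0 < sg a ν r := by
    intro r hr
    rw [Metric.mem_closedBall, Real.dist_eq, abs_le] at hr
    have h1 : -δ ≤ r := by linarith [hr.1]
    have h2 : 4 * ν * (-δ) = -(a ^ 2 / 2) := by rw [hδ]; field_simp; norm_num
    have h3 : 4 * ν * (-δ) ≤ 4 * ν * r := by gcongr
    unfold sg
    nlinarith [sq_pos_of_pos ha]
  have hK : IsCompact (Metric.closedBall t δ ×ˢ Metric.closedBall b ρ) :=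
    (isCompact_closedBall t δ).prod (isCompact_closedBall b ρ)
  obtain ⟨C, hC'⟩ := hK.exists_bound_of_continuousOn
    ((V1f_cont (b := b) (κ := κ) (a := a) (ν := ν) hC hT).mono fun z hz => hpos z.1 hz.1)
  refine ⟨δ, max C 0, hδ0, fun r hr => hpos r (Metric.ball_subset_closedBall hr), ?_⟩
  intro r hr x
  by_cases hx : x ∈ Metric.closedBall b ρ
  · exact (hC' (r, x) ⟨Metric.ball_subset_closedBall hr, hx⟩).trans (le_max_left _ _)
  · have : V1f b h κ a ν θ θ1 r x = 0 := by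
      refine (adm_V1f hC r).off x ?_
      rw [Metric.mem_closedBall, dist_eq_norm, not_le] at hx
      rw [R2_eq]
      nlinarith
    rw [this, norm_zero]
    exact le_max_right _ _

theorem V1_cont (hρ : 0 < ρ) (ha : 0 < a) (hν : 0 < ν) (hC : Cut ρ h h1 h2 B)
    (hT : TCut ν θ θ1 Bt) {t : ℝ} (ht : 0 ≤ t) :
    ContinuousAt (fun t => cl Ω (V1f b h κ a ν θ θ1 t)) t := by
  obtain ⟨δ, C, hδ, hpos, hb⟩ := V1f_loc (b := b) (κ := κ) hρ ha hν hC hT ht
  have hnb : Metric.ball t δ ∈ 𝓝 t := Metric.ball_mem_nhds t hδ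
  refine continuousAt_cl hρ (Eventually.of_forall fun t => adm_V1f hC t) (C := C)
    (by filter_upwards [hnb] with r hr using hb r hr) ?_
  intro x
  have h1 := V1f_cont (b := b) (κ := κ) (a := a) (ν := ν) hC hT
  have h2 : ContinuousAt (fun z : ℝ × E3 => V1f b h κ a ν θ θ1 z.1 z.2) (t, x) := by
    refine h1.continuousAt ?_
    have : Continuous fun z : ℝ × E3 => sg a ν z.1 := sg_cont.comp continuous_fst
    exact this.isOpen_preimage _ isOpen_Ioi |>.mem_nhds (sg_pos ha hν ht)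
  exact h2.comp (f := fun t => (t, x)) (by fun_prop)

theorem V_deriv (hρ : 0 < ρ) (ha : 0 < a) (hν : 0 < ν) (hC : Cut ρ h h1 h2 B)
    (hT : TCut ν θ θ1 Bt) {t : ℝ} (ht : 0 ≤ t) :
    HasDerivAt (fun t => cl Ω (Vf b h κ a ν θ t)) (cl Ω (V1f b h κ a ν θ θ1 t)) t := by
  obtain ⟨δ, C, hδ, hpos, hb⟩ := V1f_loc (b := b) (κ := κ) hρ ha hν hC hT ht
  exact hasDerivAt_cl hρ hδ (fun t _ => adm_Vf hC t) (adm_V1f hC t) hb
    (fun r hr x => Vf_deriv hT (hpos r hr) x)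

/-- the vortex is an approximate solution -/
theorem appr (hΩ : IsOpen Ω) (hρ : 0 < ρ) (hBΩ : Metric.ball b ρ ⊆ Ω) {K : ℝ} (hK : 0 ≤ K)
    (ha : 0 < a) (ha1 : a ≤ 1) (hν : 0 < ν) (hB : 0 < B) (hBt : 0 < Bt)
    (hC : Cut ρ h h1 h2 B) (hT : TCut ν θ θ1 Bt) {T : ℝ} (hT0 : 0 ≤ T) :
    Appr (graphW Ω) (tensL (Ω := Ω)) ν T
      (fun t => cl Ω (Vf b h (K * a ^ 2) a ν θ t)) (fun t => cl Ω (V1f b h (K * a ^ 2) a ν θ θ1 t))
      (fun t => cl Ω (gf b h h1 h2 (K * a ^ 2) a ν θ θ1 t))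
      (fun t => clj Ω (Vf b h (K * a ^ 2) a ν θ t))
      (fun t => 4 * B * K * a ^ 2 * (1 / √(sg a ν t) ^ 3))
      (fun t => √(2 * Real.pi * ρ) * (12 * K * B * (Bt + ν * (2 * ρ ^ 2 + 10)) + K ^ 2 * B ^ 2 * ρ)
        * a ^ 2 * (1 / √(sg a ν t) ^ 3)) where
  mem := fun t _ => vort_mem hρ hBΩ hC t
  V1m := mem_cont fun t ht => (V1_cont hρ ha hν hC hT ht.1).continuousWithinAt
  pV := by
    intro x y hx hxy hy
    symm
    refine intervalIntegral.integral_eq_sub_of_hasDerivAt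
      (f := fun t => cl Ω (Vf b h (K * a ^ 2) a ν θ t)) (fun t ht => ?_) ?_
    · rw [uIcc_of_le hxy] at ht
      exact V_deriv hρ ha hν hC hT (hx.trans ht.1)
    · refine ContinuousOn.intervalIntegrable fun t ht => ?_
      rw [uIcc_of_le hxy] at ht
      exact (V1_cont hρ ha hν hC hT (hx.trans ht.1)).continuousWithinAt
  eqn := fun t ht p hp => vort_weak hΩ.measurableSet hρ hBΩ hC (sg_pos ha hν ht.1) hp
  tri := by
    intro t ht p hp
    refine vort_tri hΩ.measurableSet hρ hBΩ hC (by positivity) (fun x => ?_) hp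
    refine (norm_Vf_le (by positivity) hB hC hT (sg_pos ha hν ht.1) x).trans (le_of_eq ?_)
    ring
  gle := by
    intro t ht
    refine (norm_g hK hν hρ hB hBt hC hT ha ha1 ht.1).trans (le_of_eq ?_)
    ring
  N0 := fun t => by positivity
  Nc := continuousOn_const.mul (pow_sg_cont ha hν 3)
  γc := continuousOn_const.mul (pow_sg_cont ha hν 3)

/-- **Global strong solutions.** -/
theorem lv_mid (hloc : S_loc) (hun : S_univ) (hΩ : IsOpen Ω) (hb : Bornology.IsBounded Ω)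
    (hρ : 0 < ρ) (hBΩ : Metric.ball b ρ ⊆ Ω) {K : ℝ} (hK : 0 < K) (hν : 0 < ν) (hB : 0 < B)
    (hBt : 0 < Bt) (hC : Cut ρ h h1 h2 B) (hT : TCut ν θ θ1 Bt) {C : ℝ}
    (Fr : Frame (graphW Ω) (tensL (Ω := Ω)) C) :
    ∃ a0 : ℝ, 0 < a0 ∧ ∀ a : ℝ, 0 < a → a ≤ a0 → ∀ T : ℝ, 0 < T →
      ∃ (u u1 : ℝ → L2V Ω) (z z1 : ℝ → L2M Ω),
        Str (graphW Ω) (tensL (Ω := Ω)) ν T (fun _ => 0) u u1 z z1 ∧
        u 0 = cl Ω (Vf b h (K * a ^ 2) a ν θ 0) := by
  obtain ⟨c, hc, hU⟩ := hun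
  have Un := hU Ω hΩ
  have hpi := Real.pi_pos
  set Cy : ℝ := 4 * K * B * (5 * Bt + 8 * ν) * √(2 * Real.pi * ρ) with hCy
  set Cg : ℝ := √(2 * Real.pi * ρ) * (12 * K * B * (Bt + ν * (2 * ρ ^ 2 + 10)) + K ^ 2 * B ^ 2 * ρ)
    with hCg
  have hP0 : 0 < √(2 * Real.pi * ρ) := Real.sqrt_pos.2 (by positivity)
  have hCy0 : 0 < Cy := by positivity
  have hCg0 : 0 < Cg := by positivity
  set L : ℝ := 2 * B ^ 2 * K ^ 2 / ν ^ 2 with hL
  have hL0 : 0 ≤ L := by positivity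
  set k0 : ℝ := Real.exp (L + 1) * (Cg / (2 * ν)) with hk0
  have hk00 : 0 < k0 := by positivity
  set CY : ℝ := 4 * (Cy + Cg) * Real.exp L + 1 with hCY
  have hCY0 : 0 < CY := by positivity
  set Ct : ℝ := CY + Cy + Cg + (4 * B * K) ^ 2 / (2 * ν) * k0 with hCt
  have hCt0 : 0 < Ct := by positivity
  refine ⟨min 1 (ν ^ 5 / (32 * c ^ 4 * k0 ^ 3 * Ct)), lt_min one_pos (by positivity), ?_⟩
  intro a ha haa T hT0
  have ha1 : a ≤ 1 := haa.trans (min_le_left _ _)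
  have ha2 : a ≤ ν ^ 5 / (32 * c ^ 4 * k0 ^ 3 * Ct) := haa.trans (min_le_right _ _)
  have hsa : ∀ t : ℝ, 0 ≤ t → a ≤ √(sg a ν t) := by
    intro t ht
    rw [← Real.sqrt_sq ha.le]
    refine Real.sqrt_le_sqrt ?_
    unfold sg
    rw [Real.sqrt_sq ha.le]
    have : 0 ≤ 4 * ν * t := by positivity
    linarith
  have hinv : ∀ t : ℝ, 0 ≤ t → a ^ 2 * (1 / √(sg a ν t) ^ 3) ≤ 1 / a := by
    intro t ht
    have h1 := hsa t ht
    have h2 : 0 < √(sg a ν t) := ha.trans_le h1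
    rw [mul_one_div, div_le_div_iff₀ (by positivity) ha, one_mul]
    calc a ^ 2 * a = a ^ 3 := by ring
      _ ≤ √(sg a ν t) ^ 3 := by gcongr
  have A := appr (K := K) hΩ hρ hBΩ hK.le ha ha1 hν hB hBt hC hT hT0.le
  rw [← hCg] at A
  refine pert hloc Fr (hom_tensL hΩ.measurableSet) Un (H772R2.NSR.rellich_W hΩ hb) hν hT0 A
    (L := L) (Γ := Cg / (2 * ν) * a) (K0 := k0 * a) (Y := CY / a ^ 2) (Y1 := Cy / a ^ 2)
    (Nb := 4 * B * K / a) (γb := Cg / a) ?_ ?_ (by positivity) ?_ (by positivity) ?_ ?_ ?_ ?_ ?_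
  · have e : (fun s => (4 * B * K * a ^ 2 * (1 / √(sg a ν s) ^ 3)) ^ 2)
        = fun s => (4 * B * K * a ^ 2) ^ 2 * (1 / √(sg a ν s) ^ 6) := by
      funext s
      ring
    rw [e, intervalIntegral.integral_const_mul]
    calc (4 * B * K * a ^ 2) ^ 2 * ∫ s in (0 : ℝ)..T, 1 / √(sg a ν s) ^ 6
        ≤ (4 * B * K * a ^ 2) ^ 2 * (1 / (8 * ν * a ^ 4)) := by
          have := int_sg6 (a := a) ha hν hT0.le
          gcongr
      _ = ν * L := by
          rw [hL]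
          field_simp
          norm_num
  · rw [intervalIntegral.integral_const_mul]
    calc Cg * a ^ 2 * ∫ s in (0 : ℝ)..T, 1 / √(sg a ν s) ^ 3
        ≤ Cg * a ^ 2 * (1 / (2 * ν * a)) := by
          have := int_sg3 (a := a) ha hν hT0.le
          gcongr
      _ = Cg / (2 * ν) * a := by field_simp
  · have h1 : 1 ≤ Real.exp (L + 1) := Real.one_le_exp (by linarith)
    calc Real.exp (L + 1) * (Cg / (2 * ν) * a) ^ 2
        ≤ Real.exp (L + 1) ^ 2 * (Cg / (2 * ν) * a) ^ 2 := by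
          gcongr
          nlinarith
      _ = (k0 * a) ^ 2 := by rw [hk0]; ring
  · intro t ht
    exact norm_V1 hK.le hν hρ hB hBt hC hT ha ha1 ht.1
  · intro t ht
    calc 4 * B * K * a ^ 2 * (1 / √(sg a ν t) ^ 3)
        = 4 * B * K * (a ^ 2 * (1 / √(sg a ν t) ^ 3)) := by ring
      _ ≤ 4 * B * K * (1 / a) := by
          have := hinv t ht.1
          gcongr
      _ = 4 * B * K / a := by ring
  · intro t ht
    calc Cg * a ^ 2 * (1 / √(sg a ν t) ^ 3) = Cg * (a ^ 2 * (1 / √(sg a ν t) ^ 3)) := by ring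
      _ ≤ Cg * (1 / a) := by
          have := hinv t ht.1
          gcongr
      _ = Cg / a := by ring
  · have h1 : Cg / a ≤ Cg / a ^ 2 := by
      rw [div_le_div_iff₀ ha (by positivity)]
      have : a ^ 2 ≤ a := by nlinarith
      gcongr
    have h2 : 0 < 1 / a ^ 2 := by positivity
    calc 4 * (Cy / a ^ 2 + Cg / a) * Real.exp L
        ≤ 4 * (Cy / a ^ 2 + Cg / a ^ 2) * Real.exp L := by gcongr
      _ = (4 * (Cy + Cg) * Real.exp L) / a ^ 2 := by ring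
      _ < (4 * (Cy + Cg) * Real.exp L) / a ^ 2 + 1 / a ^ 2 := by linarith
      _ = CY / a ^ 2 := by rw [hCY]; ring
  · have h1 : Cg / a ≤ Cg / a ^ 2 := by
      rw [div_le_div_iff₀ ha (by positivity)]
      have : a ^ 2 ≤ a := by nlinarith
      gcongr
    have h3 : (4 * B * K / a) ^ 2 / (2 * ν) * (k0 * a) ≤ (4 * B * K) ^ 2 / (2 * ν) * k0 / a ^ 2 := by
      have e : (4 * B * K / a) ^ 2 / (2 * ν) * (k0 * a) = (4 * B * K) ^ 2 / (2 * ν) * k0 / a := by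
        field_simp
      rw [e, div_le_div_iff₀ ha (by positivity)]
      have : a ^ 2 ≤ a := by nlinarith
      gcongr
    calc 32 * c ^ 4 * (k0 * a) ^ 3 * (CY / a ^ 2 + Cy / a ^ 2 + Cg / a
          + (4 * B * K / a) ^ 2 / (2 * ν) * (k0 * a))
        ≤ 32 * c ^ 4 * (k0 * a) ^ 3 * (CY / a ^ 2 + Cy / a ^ 2 + Cg / a ^ 2
          + (4 * B * K) ^ 2 / (2 * ν) * k0 / a ^ 2) := by gcongr
      _ = 32 * c ^ 4 * k0 ^ 3 * Ct * a := by
          rw [hCt]
          field_simp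
      _ ≤ 32 * c ^ 4 * k0 ^ 3 * Ct * (ν ^ 5 / (32 * c ^ 4 * k0 ^ 3 * Ct)) := by gcongr
      _ = ν ^ 5 := by field_simp

end Pool.Agent.Y303.LV
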