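import Pool.Agent.Y303.LV.Vort

/-!
The heat semigroup applied to the Gaussian vortex.
-/

set_option autoImplicit false
set_option linter.unusedSectionVars false

open MeasureTheory Set Filter Topology
open scoped InnerProductSpace ENNReal ContDiff NNReal

namespace Pool.Agent.Y303.LV

open H772R2.NS

/-- heat semigroup -/
noncomputable def heatE (s : ℝ) (φ : E3 → E3) (x : E3) : E3 :=
  ((4 * Real.pi * s) ^ (3 / 2 : ℝ))⁻¹ • ∫ y, Real.exp (-‖x - y‖ ^ 2 / (4 * s)) • φ y

/-- the region where the integrand is bounded from below -/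
def Ur : Set E3 := Metric.ball 0 1 ∩ {y | 1 / 2 < y 0}

theorem Ur_open : IsOpen Ur :=
  Metric.isOpen_ball.inter (isOpen_lt continuous_const (by fun_prop))

theorem Ur_pos : 0 < (volume Ur).toReal := by
  refine ENNReal.toReal_pos ?_ ?_
  · refine (Ur_open.measure_pos volume ⟨(3 / 4 : ℝ) • ev 0, ?_, ?_⟩).ne'
    · rw [mem_ball_zero_iff, norm_smul]
      simp [ev]
      norm_num
    · simp [ev]
      norm_num
  · exact ((measure_mono inter_subset_left).trans_lt measure_ball_lt_top).ne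

/-- the constant -/
noncomputable def c2 : ℝ := (Real.exp (1 / 4) - 1) / 2 * Real.exp (-(5 / 4)) * (volume Ur).toReal

theorem c2_pos : 0 < c2 := by
  have h1 : 1 < Real.exp (1 / 4) := Real.one_lt_exp_iff.2 (by norm_num)
  have h2 : 0 < (Real.exp (1 / 4) - 1) / 2 := by linarith
  have := Ur_pos
  unfold c2
  positivity

theorem low_int {w : E3 → ℝ} (hwc : Continuous w) (hws : HasCompactSupport w)
    (hw0 : ∀ y, 0 ≤ w y) (hwe : ∀ y, w (-y) = w y)
    (hw1 : ∀ y ∈ Ur, Real.exp (-(5 / 4)) ≤ w y) :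
    c2 ≤ ∫ y, Real.exp (y 0 / 2) * y 0 * w y := by
  have c0 : Continuous (fun y : E3 => y 0) := by fun_prop
  have i1 : Integrable (fun y => y 0 * w y) :=
    (c0.mul hwc).integrable_of_hasCompactSupport hws.mul_left
  have i2 : Integrable (fun y => (Real.exp (y 0 / 2) - 1) * y 0 * w y) := by
    refine Continuous.integrable_of_hasCompactSupport ?_ hws.mul_left
    fun_prop
  have h1 : ∫ y, y 0 * w y = 0 := by
    have h2 := integral_neg_eq_self (fun y : E3 => y 0 * w y) volume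
    simp only [PiLp.neg_apply, hwe, neg_mul, integral_neg] at h2
    linarith
  have h3 : ∫ y, Real.exp (y 0 / 2) * y 0 * w y
      = ∫ y, (Real.exp (y 0 / 2) - 1) * y 0 * w y := by
    have e : (fun y : E3 => Real.exp (y 0 / 2) * y 0 * w y)
        = fun y => (Real.exp (y 0 / 2) - 1) * y 0 * w y + y 0 * w y := by
      funext y
      ring
    rw [e, integral_add i2 i1, h1, add_zero]
  have hnn : ∀ y : E3, 0 ≤ (Real.exp (y 0 / 2) - 1) * y 0 * w y := by
    intro y
    refine mul_nonneg ?_ (hw0 y)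
    rcases le_total 0 (y 0) with h | h
    · refine mul_nonneg ?_ h
      have : 1 ≤ Real.exp (y 0 / 2) := Real.one_le_exp (by linarith)
      linarith
    · refine mul_nonneg_of_nonpos_of_nonpos ?_ h
      have : Real.exp (y 0 / 2) ≤ 1 := Real.exp_le_one_iff.2 (by linarith)
      linarith
  rw [h3]
  have hfin : volume Ur ≠ ⊤ := ((measure_mono inter_subset_left).trans_lt measure_ball_lt_top).ne
  calc c2 = ∫ _ in Ur, (Real.exp (1 / 4) - 1) / 2 * Real.exp (-(5 / 4)) := by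
        rw [setIntegral_const, smul_eq_mul, measureReal_def, mul_comm]
        rfl
    _ ≤ ∫ y in Ur, (Real.exp (y 0 / 2) - 1) * y 0 * w y := by
        refine setIntegral_mono_on (integrableOn_const hfin) i2.integrableOn
          Ur_open.measurableSet fun y hy => ?_
        have hy0 : 1 / 2 < y 0 := hy.2
        have k1 : Real.exp (1 / 4) - 1 ≤ Real.exp (y 0 / 2) - 1 := by
          have := Real.exp_le_exp.2 (show (1 : ℝ) / 4 ≤ y 0 / 2 by linarith)
          linarith
        have k2 : 1 ≤ Real.exp (1 / 4) := Real.one_le_exp (by norm_num)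
        have k3 := hw1 y hy
        calc (Real.exp (1 / 4) - 1) / 2 * Real.exp (-(5 / 4))
            = (Real.exp (1 / 4) - 1) * (1 / 2) * Real.exp (-(5 / 4)) := by ring
          _ ≤ (Real.exp (y 0 / 2) - 1) * y 0 * w y := by
              have k4 : 0 ≤ Real.exp (1 / 4) - 1 := by linarith
              have k5 : 0 ≤ Real.exp (y 0 / 2) - 1 := k4.trans k1
              have k6 : (Real.exp (1 / 4) - 1) * (1 / 2) ≤ (Real.exp (y 0 / 2) - 1) * y 0 :=
                mul_le_mul k1 hy0.le (by norm_num) k5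
              exact mul_le_mul k6 k3 (Real.exp_pos _).le (mul_nonneg k5 (by linarith))
    _ ≤ ∫ y, (Real.exp (y 0 / 2) - 1) * y 0 * w y :=
        setIntegral_le_integral i2 (Eventually.of_forall hnn)

variable {b : E3} {ρ B ν a K Bt : ℝ} {h h1 h2 θ θ1 : ℝ → ℝ}

/-- the lower bound of the scale invariant norm -/
theorem heat_low (hρ : 0 < ρ) (hC : Cut ρ h h1 h2 B) (hT : TCut ν θ θ1 Bt) (hK : 0 < K)
    (ha : 0 < a) (haρ : a ≤ ρ / 2) :
    (((4 * Real.pi) ^ (3 / 2 : ℝ))⁻¹ * Real.exp (-(1 / 4)) * c2) * K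
      ≤ √(a ^ 2) * ‖heatE (a ^ 2) (Vf b h (K * a ^ 2) a ν θ 0) (b + a • ev 0)‖ := by
  have hpi := Real.pi_pos
  set φ := Vf b h (K * a ^ 2) a ν θ 0 with hφ
  set x : E3 := b + a • ev 0 with hx
  have hadm : Adm b ρ φ := adm_Vf hC 0
  have hcs := hadm.compact hρ
  set Φ : E3 → E3 := fun y => Real.exp (-‖x - y‖ ^ 2 / (4 * a ^ 2)) • φ y with hΦ
  have hφc := hadm.cont
  have hΦc : Continuous Φ := by
    rw [hΦ]
    fun_prop
  have hΦs : HasCompactSupport Φ := by
    refine hcs.mono fun y hy h0 => hy ?_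
    simp only [hΦ]
    rw [h0, smul_zero]
  have hΦi : Integrable Φ := hΦc.integrable_of_hasCompactSupport hΦs
  -- the weight
  set w : E3 → ℝ := fun y => h (a ^ 2 * ‖y‖ ^ 2) * Real.exp (-(‖y‖ ^ 2 / 4) - (y 0 * y 0 + y 1 * y 1))
    with hw
  have hhc := hC.smooth.continuous
  have hwc : Continuous w := by
    rw [hw]
    fun_prop
  have hws : HasCompactSupport w := by
    refine HasCompactSupport.of_support_subset_isCompact (isCompact_closedBall 0 (ρ / a)) ?_
    intro y hy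
    by_contra hcon
    refine hy ?_
    rw [mem_closedBall_zero_iff, not_le, div_lt_iff₀ ha] at hcon
    simp only [hw]
    rw [hC.off0, zero_mul]
    have : ρ ^ 2 < a ^ 2 * ‖y‖ ^ 2 := by nlinarith [norm_nonneg y]
    nlinarith [sq_pos_of_pos hρ]
  have hlow := low_int (w := w) hwc hws
    (fun y => mul_nonneg (hC.nonneg _) (Real.exp_pos _).le)
    (fun y => by simp only [hw]; simp) (fun y hy => by
      have hy1 : ‖y‖ < 1 := mem_ball_zero_iff.1 hy.1
      have hy2 : ‖y‖ ^ 2 ≤ 1 := by nlinarith [norm_nonneg y]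
      have k1 : h (a ^ 2 * ‖y‖ ^ 2) = 1 := by
        refine hC.one _ ?_
        calc a ^ 2 * ‖y‖ ^ 2 ≤ (ρ / 2) ^ 2 * 1 := by gcongr
          _ = ρ ^ 2 / 4 := by ring
      simp only [hw]
      rw [k1, one_mul]
      refine Real.exp_le_exp.2 ?_
      have k2 : y 0 * y 0 + y 1 * y 1 ≤ ‖y‖ ^ 2 := by
        rw [norm_sq_E3, Fin.sum_univ_three]
        nlinarith [sq_nonneg (y 2)]
      linarith)
  -- change of variables
  have e1 : ∫ y, Φ y = (a ^ 3) • ∫ η, Φ (b + a • η) := by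
    have h3 := Measure.integral_comp_smul (volume : Measure E3) (fun y => Φ (b + y)) a
    rw [integral_add_left_eq_self Φ b, finrank_euclideanSpace, Fintype.card_fin,
      abs_of_pos (by positivity)] at h3
    rw [h3, smul_smul, mul_inv_cancel₀ (by positivity), one_smul]
  have hi2 : Integrable fun η => Φ (b + a • η) := by
    have h3 : Integrable fun y => Φ (b + y) := hΦi.comp_add_left b
    exact h3.comp_smul ha.ne'
  have e2 : (∫ η, Φ (b + a • η)) 1
      = -(K / a * Real.exp (-(1 / 4))) * ∫ η, Real.exp (η 0 / 2) * η 0 * w η := by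
    have h3 := (EuclideanSpace.proj (𝕜 := ℝ) 1 : E3 →L[ℝ] ℝ).integral_comp_comm hi2
    have h4 : (∫ η, Φ (b + a • η)) 1 = ∫ η, (Φ (b + a • η)) 1 := h3.symm
    rw [h4, ← integral_const_mul]
    refine integral_congr_ae (Eventually.of_forall fun η => ?_)
    have k1 : x - (b + a • η) = a • (ev 0 - η) := by
      rw [hx, smul_sub]
      abel
    have k2 : ‖ev 0 - η‖ ^ 2 = ‖η‖ ^ 2 - 2 * η 0 + 1 := by
      rw [norm_sq_E3, norm_sq_E3, Fin.sum_univ_three, Fin.sum_univ_three]
      simp [ev]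
      ring
    have k3 : R2 b (b + a • η) = a ^ 2 * ‖η‖ ^ 2 := by
      rw [R2_eq, add_sub_cancel_left, norm_smul, mul_pow, Real.norm_eq_abs, sq_abs]
    have k4 : q2 b (b + a • η) = a ^ 2 * (η 0 * η 0 + η 1 * η 1) := by
      simp only [q2, yc, PiLp.add_apply, PiLp.smul_apply, smul_eq_mul, add_sub_cancel_left]
      ring
    simp only [hΦ, hφ, Vf, vf_apply, PiLp.smul_apply, smul_eq_mul, Gf, Am, hT.one, sg, mul_zero,
      add_zero, mul_one, hw]
    rw [k1, norm_smul, mul_pow, k2, k3, k4, Real.norm_eq_abs, sq_abs]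
    have k5 : Jc b (b + a • η) 1 = -(a * η 0) := by
      simp [Jc, yc]
    rw [k5]
    have k6 : Real.exp (-(a ^ 2 * (‖η‖ ^ 2 - 2 * η 0 + 1)) / (4 * a ^ 2))
        * Real.exp (-(1 / a ^ 2) * (a ^ 2 * (η 0 * η 0 + η 1 * η 1)))
        = Real.exp (-(1 / 4)) * Real.exp (η 0 / 2)
          * Real.exp (-(‖η‖ ^ 2 / 4) - (η 0 * η 0 + η 1 * η 1)) := by
      rw [← Real.exp_add, ← Real.exp_add, ← Real.exp_add]
      congr 1
      field_simp
      ring
    calc Real.exp (-(a ^ 2 * (‖η‖ ^ 2 - 2 * η 0 + 1)) / (4 * a ^ 2))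
          * (K * a ^ 2 / (a ^ 2) ^ 2 * (h (a ^ 2 * ‖η‖ ^ 2)
            * Real.exp (-(1 / a ^ 2) * (a ^ 2 * (η 0 * η 0 + η 1 * η 1))) * -(a * η 0)))
        = (Real.exp (-(a ^ 2 * (‖η‖ ^ 2 - 2 * η 0 + 1)) / (4 * a ^ 2))
          * Real.exp (-(1 / a ^ 2) * (a ^ 2 * (η 0 * η 0 + η 1 * η 1))))
          * (K * a ^ 2 / (a ^ 2) ^ 2 * h (a ^ 2 * ‖η‖ ^ 2) * -(a * η 0)) := by ring
      _ = _ := by
          rw [k6]
          field_simp
  set A : ℝ := ∫ η, Real.exp (η 0 / 2) * η 0 * w η with hA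
  have hA0 : 0 < A := c2_pos.trans_le hlow
  set P : ℝ := ((4 * Real.pi) ^ (3 / 2 : ℝ))⁻¹ with hP
  have hP0 : 0 < P := by positivity
  have e3 : ((4 * Real.pi * a ^ 2) ^ (3 / 2 : ℝ))⁻¹ = P / a ^ 3 := by
    rw [Real.mul_rpow (by positivity) (by positivity), mul_inv, ← Real.rpow_natCast a 2,
      ← Real.rpow_mul ha.le, hP, ← Real.rpow_natCast a 3]
    norm_num
    exact (div_eq_mul_inv _ _).symm
  have e4 : (heatE (a ^ 2) φ x) 1 = -(P * (K / a * Real.exp (-(1 / 4))) * A) := by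
    have : heatE (a ^ 2) φ x = (P / a ^ 3) • ∫ y, Φ y := by
      rw [heatE, e3]
    rw [this, e1, smul_smul, PiLp.smul_apply, e2, smul_eq_mul]
    field_simp
  have e5 : P * (K / a * Real.exp (-(1 / 4))) * A ≤ ‖heatE (a ^ 2) φ x‖ := by
    have h3 : ‖(heatE (a ^ 2) φ x) 1‖ ≤ ‖heatE (a ^ 2) φ x‖ := PiLp.norm_apply_le _ _
    rw [e4, norm_neg, Real.norm_of_nonneg (by positivity)] at h3
    exact h3
  rw [Real.sqrt_sq ha.le]
  calc P * Real.exp (-(1 / 4)) * c2 * K ≤ P * Real.exp (-(1 / 4)) * A * K := by gcongr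
    _ = a * (P * (K / a * Real.exp (-(1 / 4))) * A) := by field_simp
    _ ≤ a * ‖heatE (a ^ 2) φ x‖ := by gcongr

end Pool.Agent.Y303.LV
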