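import Pool.Agent.H772R2.NS.Pub

/-!
Public definition: the heat semigroup, for the scale invariant norm
`sup_{s > 0} √s ‖e^{sΔ} φ‖_∞` of `B^{-1}_{∞,∞}(ℝ³)`.
-/

set_option autoImplicit false

open MeasureTheory Set

namespace Pool.Agent.Y303.LV

open H772R2.NS.Pub

/-- `e^{sΔ} φ (x) = (4πs)^{-3/2} ∫ exp (-|x - y|² / (4s)) φ(y) dy` on the whole space. -/
noncomputable def heat (s : ℝ) (φ : R3 → R3) (x : R3) : R3 :=
  ((4 * Real.pi * s) ^ (3 / 2 : ℝ))⁻¹ • ∫ y, Real.exp (-‖x - y‖ ^ 2 / (4 * s)) • φ y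

end Pool.Agent.Y303.LV
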