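import Pool.Agent.Y303.LV.Fin
import Pool.Agent.Y303.LV.Heat
import Pool.Agent.Y303.LV.PubDef
import Pool.Agent.Y303.NF.Pub

/-!
Large vortices, in terms of the public definitions.
-/

set_option autoImplicit false
set_option linter.unusedSectionVars false

open MeasureTheory Set Filter Topology
open scoped InnerProductSpace ENNReal ContDiff

namespace Pool.Agent.Y303.LV

open H772R2.NS H772R2.NS.Pub H772R2.NSR H772R2.NSG
open Pool.Agent.W795.TQ Pool.Agent.Y303.RA Pool.Agent.Y303.NF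

theorem lv_pub (hloc : S_loc) (huni : S_uni) (hun : S_univ) {Ω : Set E3} (hΩ : IsOpen Ω)
    (hb : Bornology.IsBounded Ω) {b : E3} {ρ : ℝ} (hρ : 0 < ρ) (hB : Metric.ball b ρ ⊆ Ω)
    {ν : ℝ} (hν : 0 < ν) (M : ℝ) :
    ∃ φ : E3 → E3, H772R2.NS.IsTest (Metric.ball b ρ) φ ∧
      (∃ (s : ℝ) (x : E3), 0 < s ∧ M * ν ≤ √s * ‖(heat s φ x : E3)‖) ∧
      ∃ (u u' : ℝ → L2V Ω) (G G' : ℝ → L2M Ω), (u 0 : E3 → E3) =ᵐ[volume.restrict Ω] φ ∧
        ∀ T : ℝ, 0 < T → IsStrong (show Set R3 from Ω) ν T (fun _ => 0) u u' G G' ∧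
          ∀ (w : ℝ → L2V Ω) (D : ℝ → L2M Ω),
            AEStronglyMeasurable w (volume.restrict (Ioc 0 T)) →
            (∀ᵐ t ∂(volume.restrict (Ioc 0 T)), (w t, D t) ∈ graphW Ω) →
            MemLp D 2 (volume.restrict (Ioc 0 T)) →
            (∀ φ : E3 → E3, H772R2.NS.IsTest Ω φ → ∀ t ∈ Icc 0 T,
              (∫ x in (show Set R3 from Ω), ⟪L2.fn (Ω := Ω) (E := R3) (w t) x,
                (φ : R3 → R3) x⟫_ℝ)
                - (∫ x in (show Set R3 from Ω),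
                  ⟪L2.fn (Ω := Ω) (E := R3) (w 0) x, (φ : R3 → R3) x⟫_ℝ)
              = ∫ s in (0 : ℝ)..t, Pub.rhs (Ω := Ω) ν (w s) (D s) (0 : L2M Ω) φ) →
            (∀ t ∈ Icc 0 T, ‖w t‖ ^ 2 / 2 + ν * (∫ s in (0 : ℝ)..t, ‖D s‖ ^ 2)
              ≤ ‖w 0‖ ^ 2 / 2 + ∫ s in (0 : ℝ)..t, ⟪(0 : L2M Ω), D s⟫_ℝ) → w 0 = u 0 →
            ∀ t ∈ Icc 0 T, w t = u t := by
  obtain ⟨C, Fr⟩ := exists_frame hΩ hb
  obtain ⟨h, h1, h2, B, hB0, hC⟩ := exists_cut hρ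
  obtain ⟨θ, θ1, Bt, hBt, hT⟩ := exists_tcut hν
  have hpi := Real.pi_pos
  set c3 : ℝ := ((4 * Real.pi) ^ (3 / 2 : ℝ))⁻¹ * Real.exp (-(1 / 4)) * c2 with hc3
  have hc30 : 0 < c3 := by
    have := c2_pos
    positivity
  set K : ℝ := (|M| * ν + 1) / c3 with hK
  have hK0 : 0 < K := by positivity
  obtain ⟨a0, ha0, hmain⟩ := lv_mid (b := b) hloc hun hΩ hb hρ hB hK0 hν hB0 hBt hC hT Fr
  set a : ℝ := min a0 (ρ / 2) with ha
  have hapos : 0 < a := lt_min ha0 (by positivity)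
  have hlow := heat_low (b := b) (ν := ν) (θ := θ) hρ hC hT hK0 hapos (min_le_right _ _)
  set φ := Vf b h (K * a ^ 2) a ν θ 0 with hφ
  have hadm : Adm b ρ φ := adm_Vf hC 0
  obtain ⟨v, hv0, hv⟩ := glue_all (W := graphW Ω) (m := tensL (Ω := Ω)) (F := fun _ => (0 : L2M Ω))
    (ν := ν) huni Fr hν (I := Ioi 0) (fun T hT => hT) (fun T _ => continuousOn_const)
    (x0 := cl Ω φ) (fun T hT => by
      obtain ⟨u, u1, z, z1, S, hu⟩ := hmain a hapos (min_le_left _ _) T hT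
      exact ⟨u, u1, z, z1, S, hu⟩)
  refine ⟨φ, Vf_test hρ Subset.rfl hC 0, ⟨a ^ 2, b + a • ev 0, by positivity, ?_⟩, v, deriv v,
    gz (graphW Ω) v, deriv (gz (graphW Ω) v), ?_, ?_⟩
  · have e : (heat (a ^ 2) φ (b + a • ev 0) : E3) = heatE (a ^ 2) φ (b + a • ev 0) := rfl
    rw [e]
    refine le_trans ?_ hlow
    have h3 : c3 * K = |M| * ν + 1 := by
      rw [hK]
      field_simp
    rw [h3]
    have h4 : M * ν ≤ |M| * ν := by
      have := le_abs_self M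
      gcongr
    linarith
  · rw [hv0]
    exact cl_coe hadm hρ
  · intro T hT0
    refine ⟨strong_of_str hΩ hT0 (hv T hT0) (fun _ _ => rfl), ?_⟩
    intro w D k1 k2 k3 k4 k5 hw0
    have hLH := lh_mid (F := fun _ => (0 : L2M Ω)) hΩ continuousOn_const Fr k1 k2 k3 k4 k5
    exact (huni (L2V Ω) (L2M Ω) (graphW Ω) tensL C ν T T (fun _ => 0) (w 0) w v
      (deriv v) D (gz (graphW Ω) v) (deriv (gz (graphW Ω) v)) Fr hν hT0
      le_rfl continuousOn_const hLH (hv T hT0) hw0.symm).1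

end Pool.Agent.Y303.LV
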