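import Pool.Agent.Y303.LV.Est
import Pool.Agent.H772R2.NSR.Final

/-!
The decaying Gaussian vortex with a cut-off: derivatives in time, residual, bounds.
-/

set_option autoImplicit false
set_option linter.unusedSectionVars false

open MeasureTheory Set Filter Topology
open scoped InnerProductSpace ENNReal ContDiff NNReal

namespace Pool.Agent.Y303.LV

open H772R2.NS
open Pool.Agent.W52.TQ (ibp tns norm_tns graphW_le)

/-- cut-off functions of the square of the distance -/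
structure Cut (ρ : ℝ) (h h1 h2 : ℝ → ℝ) (B : ℝ) : Prop where
  smooth : ContDiff ℝ ∞ h
  c1 : Continuous h1
  c2 : Continuous h2
  d1 : ∀ r, HasDerivAt h (h1 r) r
  d2 : ∀ r, HasDerivAt h1 (h2 r) r
  nonneg : ∀ r, 0 ≤ h r
  b0 : ∀ r, |h r| ≤ B
  b1 : ∀ r, |h1 r| ≤ B
  b2 : ∀ r, |h2 r| ≤ B
  off0 : ∀ r, ρ ^ 2 / 2 < r → h r = 0
  off1 : ∀ r, ρ ^ 2 / 2 < r → h1 r = 0
  off2 : ∀ r, ρ ^ 2 / 2 < r → h2 r = 0
  one : ∀ r, r ≤ ρ ^ 2 / 4 → h r = 1

theorem bdd_of_off {k : ℝ → ℝ} (hk : Continuous k) {A B : ℝ} (hA : ∀ r, A < r → k r = 0)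
    (hB : ∀ r, r < B → k r = 0) : ∃ M, ∀ r, |k r| ≤ M := by
  obtain ⟨M, hM⟩ := (isCompact_Icc (a := B) (b := A)).exists_bound_of_continuousOn hk.continuousOn
  refine ⟨max M 0, fun r => ?_⟩
  by_cases h1 : A < r
  · rw [hA r h1, abs_zero]
    exact le_max_right _ _
  by_cases h2 : r < B
  · rw [hB r h2, abs_zero]
    exact le_max_right _ _
  exact (hM r ⟨not_lt.1 h2, not_lt.1 h1⟩).trans (le_max_left _ _)

theorem exists_cut {ρ : ℝ} (hρ : 0 < ρ) : ∃ (h h1 h2 : ℝ → ℝ) (B : ℝ), 0 < B ∧ Cut ρ h h1 h2 B := by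
  set h : ℝ → ℝ := fun r => Real.smoothTransition (2 - 4 / ρ ^ 2 * r) with hh
  have hs : ContDiff ℝ ∞ h := Real.smoothTransition.contDiff.comp (by fun_prop)
  have hs1 : ContDiff ℝ ∞ (deriv h) := by
    have := (contDiff_infty_iff_deriv (f := h)).1 hs
    exact this.2
  have off0 : ∀ r, ρ ^ 2 / 2 < r → h r = 0 := by
    intro r hr
    refine Real.smoothTransition.zero_of_nonpos ?_
    have : 2 < 4 / ρ ^ 2 * r := by
      calc (2 : ℝ) = 4 / ρ ^ 2 * (ρ ^ 2 / 2) := by field_simp; norm_num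
        _ < 4 / ρ ^ 2 * r := by gcongr
    linarith
  have one : ∀ r, r ≤ ρ ^ 2 / 4 → h r = 1 := by
    intro r hr
    refine Real.smoothTransition.one_of_one_le ?_
    have : 4 / ρ ^ 2 * r ≤ 1 := by
      calc 4 / ρ ^ 2 * r ≤ 4 / ρ ^ 2 * (ρ ^ 2 / 4) := by gcongr
        _ = 1 := by field_simp
    linarith
  have off1 : ∀ r, ρ ^ 2 / 2 < r → deriv h r = 0 := by
    intro r hr
    have : h =ᶠ[𝓝 r] fun _ => 0 := by
      filter_upwards [Ioi_mem_nhds hr] with y hy using off0 y hy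
    rw [this.deriv_eq, deriv_const]
  have off2 : ∀ r, ρ ^ 2 / 2 < r → deriv (deriv h) r = 0 := by
    intro r hr
    have : deriv h =ᶠ[𝓝 r] fun _ => 0 := by
      filter_upwards [Ioi_mem_nhds hr] with y hy using off1 y hy
    rw [this.deriv_eq, deriv_const]
  have on1 : ∀ r, r < ρ ^ 2 / 4 → deriv h r = 0 := by
    intro r hr
    have : h =ᶠ[𝓝 r] fun _ => 1 := by
      filter_upwards [Iio_mem_nhds hr] with y hy using one y (le_of_lt hy)
    rw [this.deriv_eq, deriv_const]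
  have on2 : ∀ r, r < ρ ^ 2 / 4 → deriv (deriv h) r = 0 := by
    intro r hr
    have : deriv h =ᶠ[𝓝 r] fun _ => 0 := by
      filter_upwards [Iio_mem_nhds hr] with y hy using on1 y hy
    rw [this.deriv_eq, deriv_const]
  have c2 : Continuous (deriv (deriv h)) := hs1.continuous_deriv (by simp)
  obtain ⟨M1, hM1⟩ := bdd_of_off hs1.continuous off1 on1
  obtain ⟨M2, hM2⟩ := bdd_of_off c2 off2 on2
  refine ⟨h, deriv h, deriv (deriv h), max 1 (max M1 M2), lt_of_lt_of_le one_pos (le_max_left _ _),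
    ?_⟩
  exact
    { smooth := hs
      c1 := hs1.continuous
      c2 := c2
      d1 := fun r => ((hs.differentiable (by simp)) r).hasDerivAt
      d2 := fun r => ((hs1.differentiable (by simp)) r).hasDerivAt
      nonneg := fun r => Real.smoothTransition.nonneg _
      b0 := fun r => by
        rw [abs_of_nonneg (Real.smoothTransition.nonneg _)]
        exact (Real.smoothTransition.le_one _).trans (le_max_left _ _)
      b1 := fun r => (hM1 r).trans ((le_max_left _ _).trans (le_max_right _ _))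
      b2 := fun r => (hM2 r).trans ((le_max_right _ _).trans (le_max_right _ _))
      off0 := off0
      off1 := off1
      off2 := off2
      one := one }

/-- cut-off functions of time -/
structure TCut (ν : ℝ) (θ θ1 : ℝ → ℝ) (B : ℝ) : Prop where
  c1 : Continuous θ1
  d1 : ∀ t, HasDerivAt θ (θ1 t) t
  nonneg : ∀ t, 0 ≤ θ t
  le_one : ∀ t, θ t ≤ 1
  b1 : ∀ t, |θ1 t| ≤ B
  off0 : ∀ t, 1 / ν < t → θ t = 0
  off1 : ∀ t, 1 / ν < t → θ1 t = 0
  one : θ 0 = 1

theorem exists_tcut {ν : ℝ} (hν : 0 < ν) : ∃ (θ θ1 : ℝ → ℝ) (B : ℝ), 0 < B ∧ TCut ν θ θ1 B := by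
  set θ : ℝ → ℝ := fun t => Real.smoothTransition (1 - ν * t) with hθ
  have hs : ContDiff ℝ ∞ θ := Real.smoothTransition.contDiff.comp (by fun_prop)
  have off0 : ∀ t, 1 / ν < t → θ t = 0 := by
    intro r hr
    refine Real.smoothTransition.zero_of_nonpos ?_
    rw [div_lt_iff₀ hν] at hr
    linarith
  have off1 : ∀ r, 1 / ν < r → deriv θ r = 0 := by
    intro r hr
    have : θ =ᶠ[𝓝 r] fun _ => 0 := by
      filter_upwards [Ioi_mem_nhds hr] with y hy using off0 y hy
    rw [this.deriv_eq, deriv_const]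
  have on1 : ∀ r, r < 0 → deriv θ r = 0 := by
    intro r hr
    have : θ =ᶠ[𝓝 r] fun _ => 1 := by
      filter_upwards [Iio_mem_nhds hr] with y hy
      refine Real.smoothTransition.one_of_one_le ?_
      have : ν * y < 0 := mul_neg_of_pos_of_neg hν hy
      linarith
    rw [this.deriv_eq, deriv_const]
  have c1 : Continuous (deriv θ) := hs.continuous_deriv (by simp)
  obtain ⟨M1, hM1⟩ := bdd_of_off c1 off1 on1
  refine ⟨θ, deriv θ, max 1 M1, lt_of_lt_of_le one_pos (le_max_left _ _), ?_⟩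
  exact
    { c1 := c1
      d1 := fun r => ((hs.differentiable (by simp)) r).hasDerivAt
      nonneg := fun r => Real.smoothTransition.nonneg _
      le_one := fun r => Real.smoothTransition.le_one _
      b1 := fun r => (hM1 r).trans (le_max_right _ _)
      off0 := off0
      off1 := off1
      one := by simp [hθ] }

section vort

variable {Ω : Set E3} {b : E3} {ρ B ν a κ Bt : ℝ} {h h1 h2 θ θ1 : ℝ → ℝ}

/-- the rotation field as a vector -/
def Jv (b x : E3) : E3 := WithLp.toLp 2 fun i => Jc b x i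

theorem vf_eq (s : ℝ) (x : E3) : vf b s h x = Gf b s h x • Jv b x := by
  ext i
  rfl

theorem norm_Jv (b x : E3) : ‖Jv b x‖ = √(q2 b x) := by
  rw [← Real.sqrt_sq (norm_nonneg (Jv b x)), norm_sq_E3, Fin.sum_univ_three]
  congr 1
  simp [Jv, Jc, q2]
  ring

theorem continuous_Jv (b : E3) : Continuous (Jv b) := by
  have : ContDiff ℝ ∞ (Jv b) := by
    rw [contDiff_euclidean]
    exact fun i => cd_Jc b i
  exact this.continuous

/-- the square of the core radius -/
def sg (a ν t : ℝ) : ℝ := a ^ 2 + 4 * ν * t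

/-- the amplitude -/
noncomputable def Am (κ a ν : ℝ) (θ : ℝ → ℝ) (t : ℝ) : ℝ := κ * θ t / sg a ν t ^ 2

/-- its derivative -/
noncomputable def Am1 (κ a ν : ℝ) (θ θ1 : ℝ → ℝ) (t : ℝ) : ℝ :=
  κ * θ1 t / sg a ν t ^ 2 - 8 * ν * κ * θ t / sg a ν t ^ 3

/-- the vortex -/
noncomputable def Vf (b : E3) (h : ℝ → ℝ) (κ a ν : ℝ) (θ : ℝ → ℝ) (t : ℝ) (x : E3) : E3 :=
  Am κ a ν θ t • vf b (sg a ν t) h x

/-- its time derivative -/
noncomputable def V1f (b : E3) (h : ℝ → ℝ) (κ a ν : ℝ) (θ θ1 : ℝ → ℝ) (t : ℝ) (x : E3) : E3 :=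
  (Am1 κ a ν θ θ1 t + Am κ a ν θ t * (4 * ν * q2 b x / sg a ν t ^ 2)) • vf b (sg a ν t) h x

/-- the residual -/
noncomputable def gf (b : E3) (h h1 h2 : ℝ → ℝ) (κ a ν : ℝ) (θ θ1 : ℝ → ℝ) (t : ℝ) (x : E3) : E3 :=
  (κ / sg a ν t ^ 2 * (θ1 t * Gf b (sg a ν t) h x - ν * θ t * (4 * R2 b x * Gf b (sg a ν t) h2 x
    - 8 / sg a ν t * q2 b x * Gf b (sg a ν t) h1 x + 10 * Gf b (sg a ν t) h1 x))) • Jv b x
  - (Am κ a ν θ t ^ 2 * sg a ν t * Gf b (sg a ν t) h x * Gf b (sg a ν t) h1 x) • (x - b)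

theorem sg_pos (ha : 0 < a) (hν : 0 < ν) {t : ℝ} (ht : 0 ≤ t) : 0 < sg a ν t := by
  unfold sg; positivity

theorem Vf_deriv (hT : TCut ν θ θ1 Bt) {t : ℝ} (hs : 0 < sg a ν t) (x : E3) :
    HasDerivAt (fun t => Vf b h κ a ν θ t x) (V1f b h κ a ν θ θ1 t x) t := by
  have hsd : HasDerivAt (sg a ν) (4 * ν) t := by
    have h0 := ((hasDerivAt_id t).const_mul (4 * ν)).const_add (a ^ 2)
    rw [mul_one] at h0
    exact h0
  have hs' := hs.ne'
  have hA : HasDerivAt (Am κ a ν θ) (Am1 κ a ν θ θ1 t) t := by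
    have h0 := ((hT.d1 t).const_mul κ).div (hsd.pow 2) (pow_ne_zero 2 hs')
    refine h0.congr_deriv ?_
    simp only [Am1, Pi.pow_apply]
    field_simp
    ring
  have hE : HasDerivAt (fun t => Real.exp (-(1 / sg a ν t) * q2 b x))
      (Real.exp (-(1 / sg a ν t) * q2 b x) * (4 * ν * q2 b x / sg a ν t ^ 2)) t := by
    have h0 : HasDerivAt (fun t => -(1 / sg a ν t) * q2 b x) (4 * ν * q2 b x / sg a ν t ^ 2) t := by
      have h1 := ((hsd.inv hs').neg).mul_const (q2 b x)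
      refine (h1.congr_deriv ?_).congr_of_eventuallyEq (Eventually.of_forall fun t => ?_)
      · field_simp
      · simp [one_div]
    exact h0.exp
  have h3 := ((hA.mul (hE.const_mul (h (R2 b x)))).smul_const (Jv b x))
  refine (h3.congr_deriv ?_).congr_of_eventuallyEq (Eventually.of_forall fun t => ?_)
  · rw [V1f, vf_eq, smul_smul, Gf]
    congr 1
    ring
  · simp only [Vf]
    rw [vf_eq, smul_smul, Gf]
    rfl

theorem Vf_test (hρ : 0 < ρ) (hB : Metric.ball b ρ ⊆ Ω) (hC : Cut ρ h h1 h2 B) (t : ℝ) :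
    IsTest Ω (Vf b h κ a ν θ t) :=
  (test_vf hρ hB hC.smooth hC.d1 hC.off0).smul (Am κ a ν θ t)

theorem adm_Vf (hC : Cut ρ h h1 h2 B) (t : ℝ) : Adm b ρ (Vf b h κ a ν θ t) where
  cont := by
    have := (cd_vf b (sg a ν t) hC.smooth).continuous
    unfold Vf
    fun_prop
  off := fun x hx => by
    rw [Vf, vf_eq, Gf_off hC.off0 hx, zero_smul, smul_zero]

theorem adm_V1f (hC : Cut ρ h h1 h2 B) (t : ℝ) : Adm b ρ (V1f b h κ a ν θ θ1 t) where
  cont := by
    have := (cd_vf b (sg a ν t) hC.smooth).continuous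
    have := (cd_q2 b).continuous
    unfold V1f
    fun_prop
  off := fun x hx => by
    rw [V1f, vf_eq, Gf_off hC.off0 hx, zero_smul, smul_zero]

theorem adm_gf (hC : Cut ρ h h1 h2 B) (t : ℝ) : Adm b ρ (gf b h h1 h2 κ a ν θ θ1 t) where
  cont := by
    have := continuous_Gf b (sg a ν t) hC.smooth.continuous
    have := continuous_Gf b (sg a ν t) hC.c1
    have := continuous_Gf b (sg a ν t) hC.c2
    have := (cd_q2 b).continuous
    have := (cd_R2 b).continuous
    have := continuous_Jv b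
    unfold gf
    fun_prop
  off := fun x hx => by
    rw [gf, Gf_off hC.off0 hx, Gf_off hC.off1 hx, Gf_off hC.off2 hx]
    simp

/-- the equation of the vortex -/
theorem vort_eqn (hρ : 0 < ρ) (hB : Metric.ball b ρ ⊆ Ω) (hC : Cut ρ h h1 h2 B) {t : ℝ}
    (hs : 0 < sg a ν t) {ψ : E3 → E3} (hψ : IsTest Ω ψ) :
    ∫ x, ∑ i, (V1f b h κ a ν θ θ1 t x - gf b h h1 h2 κ a ν θ θ1 t x) i * ψ x i
      = (∫ x, ⟪tens (Vf b h κ a ν θ t x), jac ψ x⟫_ℝ)
        - ν * ∫ x, ⟪jac (Vf b h κ a ν θ t) x, jac ψ x⟫_ℝ := by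
  have hv : IsTest Ω (vf b (sg a ν t) h) := test_vf hρ hB hC.smooth hC.d1 hC.off0
  have e1 : ∫ x, ⟪tens (Vf b h κ a ν θ t x), jac ψ x⟫_ℝ
      = Am κ a ν θ t ^ 2 * ∫ x, ∑ i, sg a ν t * Gf b (sg a ν t) h x * Gf b (sg a ν t) h1 x
        * yc b i x * ψ x i := by
    rw [← tens_vf hρ hB hs.ne' hC.smooth hC.d1 hC.off0 hψ, ← integral_const_mul]
    refine integral_congr_ae (Eventually.of_forall fun x => ?_)
    have : tens (Vf b h κ a ν θ t x) = Am κ a ν θ t ^ 2 • tens (vf b (sg a ν t) h x) := by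
      ext p
      simp only [tens_apply, Vf, PiLp.smul_apply, smul_eq_mul]
      ring
    simp only
    rw [this, real_inner_smul_left]
  have e2 : ∫ x, ⟪jac (Vf b h κ a ν θ t) x, jac ψ x⟫_ℝ
      = -(Am κ a ν θ t * ∫ x, ∑ i, lap (vf b (sg a ν t) h) x i * ψ x i) := by
    rw [← mul_neg, ← ibp_lap hv hψ, ← integral_const_mul]
    refine integral_congr_ae (Eventually.of_forall fun x => ?_)
    have : jac (Vf b h κ a ν θ t) x = Am κ a ν θ t • jac (vf b (sg a ν t) h) x :=
      jac_smul (Am κ a ν θ t) x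
    simp only
    rw [this, real_inner_smul_left]
  have hψc : ∀ j, Continuous (fun x => ψ x j) := fun j => (contDiff_coord hψ.smooth j).continuous
  have cG := continuous_Gf b (sg a ν t) hC.smooth.continuous
  have cG1 := continuous_Gf b (sg a ν t) hC.c1
  have i1 : Integrable (fun x => ∑ i, sg a ν t * Gf b (sg a ν t) h x * Gf b (sg a ν t) h1 x
      * yc b i x * ψ x i) := by
    refine integrable_finsetSum _ fun i _ => ?_
    refine Continuous.integrable_of_hasCompactSupport ?_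
      ((hasCompactSupport_coord hψ.compact i).mul_left)
    exact (((continuous_const.mul cG).mul cG1).mul (cd_yc b i).continuous).mul (hψc i)
  have i2 : Integrable (fun x => ∑ i, lap (vf b (sg a ν t) h) x i * ψ x i) := by
    refine integrable_finsetSum _ fun i _ => ?_
    refine Continuous.integrable_of_hasCompactSupport ?_
      ((hasCompactSupport_coord hψ.compact i).mul_left)
    refine Continuous.mul ?_ (hψc i)
    have e : (fun x => lap (vf b (sg a ν t) h) x i) = fun x => (4 * R2 b x * Gf b (sg a ν t) h2 x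
      - 8 / sg a ν t * q2 b x * Gf b (sg a ν t) h1 x
      + 4 / sg a ν t ^ 2 * q2 b x * Gf b (sg a ν t) h x + 10 * Gf b (sg a ν t) h1 x
      - 8 / sg a ν t * Gf b (sg a ν t) h x) * Jc b x i :=
      funext fun x => lap_vf b x hs.ne' hC.smooth hC.d1 hC.d2 i
    rw [e]
    have := continuous_Gf b (sg a ν t) hC.c2
    have := (cd_q2 b).continuous
    have := (cd_R2 b).continuous
    have := (cd_Jc b i).continuous
    fun_prop
  rw [e1, e2, mul_neg, sub_neg_eq_add, ← mul_assoc, ← integral_const_mul, ← integral_const_mul,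
    ← integral_add (i1.const_mul _) (i2.const_mul _)]
  refine integral_congr_ae (Eventually.of_forall fun x => ?_)
  simp only
  rw [Finset.mul_sum, Finset.mul_sum, ← Finset.sum_add_distrib]
  refine Finset.sum_congr rfl fun i _ => ?_
  rw [lap_vf b x hs.ne' hC.smooth hC.d1 hC.d2 i]
  simp only [V1f, gf, PiLp.sub_apply, PiLp.smul_apply, smul_eq_mul, vf_apply, Jv, yc, Am1, Am]
  have hs' := hs.ne'
  field_simp
  ring

end vort

end Pool.Agent.Y303.LV
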