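import Pool.Agent.Y303.LV.Field

/-!
Integrations by parts for the Gaussian vortex.
-/

set_option autoImplicit false
set_option linter.unusedSectionVars false

open MeasureTheory Set Filter Topology
open scoped InnerProductSpace ENNReal ContDiff NNReal

namespace Pool.Agent.Y303.LV

open H772R2.NS
open Pool.Agent.W52.TQ (ibp tns)

theorem R2_eq (b x : E3) : R2 b x = ‖x - b‖ ^ 2 := by
  rw [norm_sq_E3, Fin.sum_univ_three]
  simp only [R2, yc, PiLp.sub_apply]
  ring

theorem q2_nonneg (b x : E3) : 0 ≤ q2 b x := by unfold q2; nlinarith [mul_self_nonneg (yc b 0 x), mul_self_nonneg (yc b 1 x)]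

theorem q2_le (b x : E3) : q2 b x ≤ R2 b x := by unfold q2 R2; nlinarith [mul_self_nonneg (yc b 2 x)]

theorem R2_nonneg (b x : E3) : 0 ≤ R2 b x := (q2_nonneg b x).trans (q2_le b x)

theorem continuous_Gf (b : E3) (s : ℝ) {k : ℝ → ℝ} (hk : Continuous k) : Continuous (Gf b s k) :=
  (hk.comp (cd_R2 b).continuous).mul (Real.continuous_exp.comp
    (continuous_const.mul (cd_q2 b).continuous))

variable {Ω : Set E3} {b : E3} {ρ s : ℝ} {h h1 h2 : ℝ → ℝ}

theorem Gf_off {k : ℝ → ℝ} (hk : ∀ r, ρ ^ 2 / 2 < r → k r = 0) {x : E3} (hx : ρ ^ 2 / 2 < R2 b x) :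
    Gf b s k x = 0 := by
  unfold Gf
  rw [hk _ hx, zero_mul]

/-- the vortex is a test field -/
theorem test_vf (hρ : 0 < ρ) (hB : Metric.ball b ρ ⊆ Ω) (hh : ContDiff ℝ ∞ h)
    (hd : ∀ r, HasDerivAt h (h1 r) r) (hk : ∀ r, ρ ^ 2 / 2 < r → h r = 0) :
    IsTest Ω (vf b s h) := by
  have hcl : IsClosed {x : E3 | R2 b x ≤ ρ ^ 2 / 2} :=
    isClosed_le (cd_R2 b).continuous continuous_const
  have hsub : Function.support (vf b s h) ⊆ {x : E3 | R2 b x ≤ ρ ^ 2 / 2} := by
    intro x hx
    by_contra hcon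
    refine hx ?_
    ext i
    rw [vf_apply, Gf_off hk (not_le.1 hcon), zero_mul]
    rfl
  have hts : tsupport (vf b s h) ⊆ {x : E3 | R2 b x ≤ ρ ^ 2 / 2} := closure_minimal hsub hcl
  have hball : {x : E3 | R2 b x ≤ ρ ^ 2 / 2} ⊆ Metric.ball b ρ := by
    intro x hx
    rw [mem_setOf_eq, R2_eq] at hx
    rw [Metric.mem_ball, dist_eq_norm]
    have h1 : ‖x - b‖ ^ 2 < ρ ^ 2 := by nlinarith [sq_pos_of_pos hρ]
    exact (pow_lt_pow_iff_left₀ (norm_nonneg _) hρ.le (by norm_num)).1 h1
  refine ⟨cd_vf b s hh, ?_, hts.trans (hball.trans hB), fun x => div_vf b x s hh hd⟩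
  refine HasCompactSupport.of_support_subset_isCompact (isCompact_closedBall b ρ) ?_
  exact hsub.trans (hball.trans Metric.ball_subset_closedBall)

/-- integration by parts for the gradient of a function -/
theorem ibp_grad {Pr : E3 → ℝ} (hPr : ContDiff ℝ ∞ Pr) (hc : HasCompactSupport Pr) {ψ : E3 → E3}
    (hψ : IsTest Ω ψ) : ∫ x, ∑ i, fderiv ℝ Pr x (ev i) * ψ x i = 0 := by
  have hψc : ∀ j, Continuous (fun x => ψ x j) := fun j => (contDiff_coord hψ.smooth j).continuous
  have hdPr : ∀ j, Continuous (fun x => fderiv ℝ Pr x (ev j)) := fun j =>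
    (hPr.continuous_fderiv (by simp)).clm_apply continuous_const
  have hdψ : ∀ i j, Continuous (fun x => fderiv ℝ (fun y => ψ y i) x (ev j)) := fun i j =>
    ((contDiff_coord hψ.smooth i).continuous_fderiv (by simp)).clm_apply continuous_const
  have hi : ∀ i, Integrable (fun x => fderiv ℝ Pr x (ev i) * ψ x i) := fun i =>
    ((hdPr i).mul (hψc i)).integrable_of_hasCompactSupport
      ((hasCompactSupport_coord hψ.compact i).mul_left)
  have hi2 : ∀ i, Integrable (fun x => Pr x * fderiv ℝ (fun y => ψ y i) x (ev i)) := fun i =>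
    (hPr.continuous.mul (hdψ i i)).integrable_of_hasCompactSupport (hc.mul_right)
  have e : ∀ i, ∫ x, fderiv ℝ Pr x (ev i) * ψ x i
      = - ∫ x, Pr x * fderiv ℝ (fun y => ψ y i) x (ev i) := by
    intro i
    have := integral_mul_fderiv_eq_neg_fderiv_mul_of_integrable (μ := volume) (v := ev i)
      (f := Pr) (g := fun y => ψ y i) (hi i) (hi2 i)
      ((hPr.continuous.mul (hψc i)).integrable_of_hasCompactSupport (hc.mul_right))
      (fun x _ => (hPr.differentiable (by simp)) x)
      (fun x _ => ((contDiff_coord hψ.smooth i).differentiable (by simp)) x)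
    linarith
  rw [integral_finsetSum _ (fun i _ => hi i)]
  simp only [e]
  rw [Finset.sum_neg_distrib, ← integral_finsetSum _ (fun i _ => hi2 i), neg_eq_zero]
  have : ∀ x, ∑ i, Pr x * fderiv ℝ (fun y => ψ y i) x (ev i) = 0 := by
    intro x
    rw [← Finset.mul_sum]
    have h1 := hψ.divfree x
    have h2 : ∑ i, fderiv ℝ (fun y => ψ y i) x (ev i) = 0 := by
      rw [← h1]
      refine Finset.sum_congr rfl fun i _ => ?_
      rw [fderiv_coord hψ.smooth, jac_apply]
    rw [h2, mul_zero]
  simp only [this, integral_zero]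

/-- integration by parts for the Laplace operator -/
theorem ibp_lap {v ψ : E3 → E3} (hv : IsTest Ω v) (hψ : IsTest Ω ψ) :
    ∫ x, ⟪jac v x, jac ψ x⟫_ℝ = - ∫ x, ∑ i, lap v x i * ψ x i := by
  have hψc : ∀ j, Continuous (fun x => ψ x j) := fun j => (contDiff_coord hψ.smooth j).continuous
  have hdψ : ∀ i j, Continuous (fun x => fderiv ℝ (fun y => ψ y i) x (ev j)) := fun i j =>
    ((contDiff_coord hψ.smooth i).continuous_fderiv (by simp)).clm_apply continuous_const
  have hJ : ∀ i j, ContDiff ℝ ∞ (fun x => jac v x (i, j)) := by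
    intro i j
    have e : (fun x => jac v x (i, j)) = fun x => fderiv ℝ (fun y => v y i) x (ev j) := by
      funext x
      rw [fderiv_coord hv.smooth, jac_apply]
    rw [e]
    exact ((contDiff_coord hv.smooth i).fderiv_right (m := ∞) (by simp)).clm_apply contDiff_const
  have hdJ : ∀ i j, Continuous (fun x => fderiv ℝ (fun y => jac v y (i, j)) x (ev j)) :=
    fun i j => ((hJ i j).continuous_fderiv (by simp)).clm_apply continuous_const
  have hJs : ∀ i j, HasCompactSupport (fun x => jac v x (i, j)) := by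
    intro i j
    refine (hasCompactSupport_jac hv.compact).mono (fun x hx => ?_)
    intro h0
    apply hx
    simp [h0]
  have i1 : ∀ i j, Integrable (fun x => jac v x (i, j) * fderiv ℝ (fun y => ψ y i) x (ev j)) :=
    fun i j => ((hJ i j).continuous.mul (hdψ i j)).integrable_of_hasCompactSupport
      (hJs i j).mul_right
  have i2 : ∀ i j, Integrable (fun x => fderiv ℝ (fun y => jac v y (i, j)) x (ev j) * ψ x i) :=
    fun i j => ((hdJ i j).mul (hψc i)).integrable_of_hasCompactSupport
      ((hasCompactSupport_coord hψ.compact i).mul_left)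
  have e : ∀ i j, ∫ x, jac v x (i, j) * fderiv ℝ (fun y => ψ y i) x (ev j)
      = - ∫ x, fderiv ℝ (fun y => jac v y (i, j)) x (ev j) * ψ x i := by
    intro i j
    exact integral_mul_fderiv_eq_neg_fderiv_mul_of_integrable (μ := volume) (v := ev j)
      (f := fun x => jac v x (i, j)) (g := fun y => ψ y i) (i2 i j) (i1 i j)
      (((hJ i j).continuous.mul (hψc i)).integrable_of_hasCompactSupport (hJs i j).mul_right)
      (fun x _ => ((hJ i j).differentiable (by simp)) x)
      (fun x _ => ((contDiff_coord hψ.smooth i).differentiable (by simp)) x)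
  have hL : ∀ x, ⟪jac v x, jac ψ x⟫_ℝ
      = ∑ i, ∑ j, jac v x (i, j) * fderiv ℝ (fun y => ψ y i) x (ev j) := by
    intro x
    rw [inner_M3]
    refine Finset.sum_congr rfl fun i _ => Finset.sum_congr rfl fun j _ => ?_
    rw [fderiv_coord hψ.smooth, jac_apply ψ]
  have hR : ∀ x, ∑ i, lap v x i * ψ x i
      = ∑ i, ∑ j, fderiv ℝ (fun y => jac v y (i, j)) x (ev j) * ψ x i := by
    intro x
    refine Finset.sum_congr rfl fun i _ => ?_
    rw [lap, Finset.sum_mul]
  simp only [hL, hR]
  rw [integral_finsetSum _ (fun i _ => integrable_finsetSum _ (fun j _ => i1 i j)),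
    integral_finsetSum _ (fun i _ => integrable_finsetSum _ (fun j _ => i2 i j)),
    ← Finset.sum_neg_distrib]
  refine Finset.sum_congr rfl fun i _ => ?_
  rw [integral_finsetSum _ (fun j _ => i1 i j), integral_finsetSum _ (fun j _ => i2 i j),
    ← Finset.sum_neg_distrib]
  exact Finset.sum_congr rfl fun j _ => e i j

/-- the quadratic term of the vortex -/
theorem tens_vf (hρ : 0 < ρ) (hB : Metric.ball b ρ ⊆ Ω) (hs : s ≠ 0) (hh : ContDiff ℝ ∞ h)
    (hd : ∀ r, HasDerivAt h (h1 r) r) (hk : ∀ r, ρ ^ 2 / 2 < r → h r = 0) {ψ : E3 → E3}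
    (hψ : IsTest Ω ψ) :
    ∫ x, ⟪tens (vf b s h x), jac ψ x⟫_ℝ
      = ∫ x, ∑ i, s * Gf b s h x * Gf b s h1 x * yc b i x * ψ x i := by
  have hv : IsTest Ω (vf b s h) := test_vf hρ hB hh hd hk
  have hG := cd_Gf b s hh
  have hGc : HasCompactSupport (Gf b s h) := by
    refine HasCompactSupport.of_support_subset_isCompact (isCompact_closedBall b ρ) ?_
    intro x hx
    by_contra hcon
    refine hx (Gf_off hk ?_)
    rw [Metric.mem_closedBall, dist_eq_norm, not_le] at hcon
    rw [R2_eq]
    nlinarith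
  rw [ibp hv hψ]
  have e : ∀ x, ⟪jac (vf b s h) x, tns (ψ x) (vf b s h x)⟫_ℝ
      = (∑ i, fderiv ℝ (fun y => s / 4 * (Gf b s h y * Gf b s h y)) x (ev i) * ψ x i)
        - ∑ i, s * Gf b s h x * Gf b s h1 x * yc b i x * ψ x i := by
    intro x
    rw [inner_M3, ← Finset.sum_sub_distrib]
    refine Finset.sum_congr rfl fun i _ => ?_
    rw [← sub_mul, ← adv_vf b x hs hh hd i, Finset.sum_mul]
    refine Finset.sum_congr rfl fun j _ => ?_
    simp only [tns]
    ring
  simp only [e]
  have h0 := ibp_grad (Ω := Ω) (Pr := fun y => s / 4 * (Gf b s h y * Gf b s h y))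
    (contDiff_const.mul (hG.mul hG)) ((hGc.mul_right).mul_left) hψ
  have hh1 : Continuous h1 := by
    have : h1 = deriv h := funext fun r => ((hd r).deriv).symm
    rw [this]
    exact (hh.continuous_deriv (by simp))
  have hψc : ∀ j, Continuous (fun x => ψ x j) := fun j => (contDiff_coord hψ.smooth j).continuous
  have i1 : Integrable (fun x => ∑ i, fderiv ℝ (fun y => s / 4 * (Gf b s h y * Gf b s h y)) x
      (ev i) * ψ x i) := by
    refine integrable_finsetSum _ fun i _ => ?_
    refine Continuous.integrable_of_hasCompactSupport ?_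
      ((hasCompactSupport_coord hψ.compact i).mul_left)
    exact (((contDiff_const.mul (hG.mul hG) : ContDiff ℝ ∞ _).continuous_fderiv
      (by simp)).clm_apply continuous_const).mul (hψc i)
  have i2 : Integrable (fun x => ∑ i, s * Gf b s h x * Gf b s h1 x * yc b i x * ψ x i) := by
    refine integrable_finsetSum _ fun i _ => ?_
    refine Continuous.integrable_of_hasCompactSupport ?_
      ((hasCompactSupport_coord hψ.compact i).mul_left)
    exact ((((continuous_const.mul hG.continuous).mul (continuous_Gf b s hh1)).mul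
      (cd_yc b i).continuous)).mul (hψc i)
  rw [integral_sub i1 i2, h0]
  ring

end Pool.Agent.Y303.LV
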